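import Mathlib
import Pool.Agent.Work.MP_314beb_co.Petersen

/-!
Edge cuts of cubic graphs.
-/

set_option linter.unusedSectionVars false

namespace Pool.Agent.Exp

open Finset SimpleGraph
open Pool.Agent.Work.MP_314beb_co

section acyc

/-- An acyclic graph has fewer edges than vertices. -/
theorem acyclic_edges {W : Type*} [Fintype W] [Nonempty W] (H : SimpleGraph W)
    [Fintype H.edgeSet] (hH : H.IsAcyclic) : H.edgeFinset.card + 1 ≤ Fintype.card W := by
  classical
  obtain ⟨T, hHT, -, hT⟩ :=
    (SimpleGraph.connected_top (V := W)).exists_isTree_le_of_le_of_isAcyclic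
      (le_top : H ≤ ⊤) hH
  have h1 := hT.card_edgeFinset
  have h2 : H.edgeFinset.card ≤ T.edgeFinset.card := card_le_card (edgeFinset_mono hHT)
  omega

end acyc

variable {V : Type*} [Fintype V] [DecidableEq V] (G : SimpleGraph V) [DecidableRel G.Adj]

/-- Number of edges leaving a vertex set. -/
def dd (S : Finset V) : ℕ := (cut G S).card

theorem mem_cut {S : Finset V} {p : V × V} :
    p ∈ cut G S ↔ p.1 ∈ S ∧ p.2 ∉ S ∧ G.Adj p.1 p.2 := by simp [cut]

theorem mem_inside {S : Finset V} {p : V × V} :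
    p ∈ inside G S ↔ p.1 ∈ S ∧ p.2 ∈ S ∧ G.Adj p.1 p.2 := by simp [inside]

theorem dd_interedges (S : Finset V) : (G.interedges S Sᶜ).card = dd G S := by
  unfold dd
  congr 1
  ext p
  rw [mem_interedges_iff, mem_cut, mem_compl]

theorem dd_compl (S : Finset V) : dd G Sᶜ = dd G S := by
  unfold dd
  refine card_bij' (fun p _ => (p.2, p.1)) (fun p _ => (p.2, p.1)) ?_ ?_ ?_ ?_
  · intro p hp
    rw [mem_cut] at hp ⊢
    simp only [mem_compl, not_not] at hp
    exact ⟨hp.2.1, hp.1, hp.2.2.symm⟩
  · intro p hp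
    rw [mem_cut] at hp ⊢
    simp only [mem_compl, not_not]
    exact ⟨hp.2.1, hp.1, hp.2.2.symm⟩
  · intro p _; rfl
  · intro p _; rfl

theorem inside_card (S : Finset V) :
    (inside G S).card = 2 * (G.induce (S : Set V)).edgeFinset.card := by
  rw [← sum_degrees_eq_twice_card_edges]
  have h2 : (inside G S).card
      = ((Finset.univ : Finset S).sigma
          (fun v => (G.induce (S : Set V)).neighborFinset v)).card := by
    refine (Finset.card_bij (fun x _ => ((x.1 : V), (x.2 : V))) ?_ ?_ ?_).symm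
    · rintro ⟨a, b⟩ h
      simp only [Finset.mem_sigma, Finset.mem_univ, true_and, mem_neighborFinset,
        comap_adj, Function.Embedding.subtype_apply] at h
      rw [mem_inside]
      exact ⟨a.2, b.2, h⟩
    · rintro ⟨a, b⟩ _ ⟨c, d⟩ _ h
      simp only [Prod.mk.injEq] at h
      obtain ⟨h1, h2⟩ := h
      have h1' := Subtype.ext h1
      have h2' := Subtype.ext h2
      subst h1' h2'
      rfl
    · rintro ⟨a, b⟩ h
      rw [mem_inside] at h
      exact ⟨⟨⟨a, h.1⟩, ⟨b, h.2.1⟩⟩, by simp [h.2.2], rfl⟩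
  rw [h2, Finset.card_sigma]
  simp

/-- A nonempty vertex set of a cubic graph inducing an acyclic graph is left by many edges. -/
theorem dd_of_acyclic (h3 : ∀ v, G.degree v = 3) {S : Finset V} (hS : S.Nonempty)
    (hac : (G.induce (S : Set V)).IsAcyclic) : S.card + 2 ≤ dd G S := by
  have : Nonempty (S : Set V) := by
    obtain ⟨x, hx⟩ := hS
    exact ⟨⟨x, hx⟩⟩
  have h1 := acyclic_edges (G.induce (S : Set V)) hac
  have h2 := inside_card G S
  have h4 := sum_degree_eq_cut_add_inside G S
  have h5 : ∑ v ∈ S, G.degree v = 3 * S.card := by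
    rw [sum_congr rfl fun v _ => h3 v, sum_const, smul_eq_mul, mul_comm]
  have h6 : Fintype.card (S : Set V) = S.card := by simp
  unfold dd
  omega

/-- Cyclic edge connectivity. -/
def CycConn (k : ℕ) : Prop :=
  ∀ S : Finset V, ¬ (G.induce (S : Set V)).IsAcyclic → ¬ (G.induce ((Sᶜ : Finset V) : Set V)).IsAcyclic →
    k ≤ dd G S

theorem three_le_dd (h3 : ∀ v, G.degree v = 3) {k : ℕ} (hk : 3 ≤ k) (hc : CycConn G k)
    {S : Finset V} (hS : S.Nonempty) (hS' : Sᶜ.Nonempty) : 3 ≤ dd G S := by
  by_cases h1 : (G.induce (S : Set V)).IsAcyclic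
  · have := dd_of_acyclic G h3 hS h1
    have := hS.card_pos
    omega
  · by_cases h2 : (G.induce ((Sᶜ : Finset V) : Set V)).IsAcyclic
    · have := dd_of_acyclic G h3 hS' h2
      have := hS'.card_pos
      rw [dd_compl] at *
      omega
    · exact hk.trans (hc S h1 h2)

theorem even_card (h3 : ∀ v, G.degree v = 3) : Even (Fintype.card V) := by
  have h1 := G.sum_degrees_eq_twice_card_edges
  rw [sum_congr rfl fun v _ => h3 v, sum_const, smul_eq_mul, card_univ] at h1
  rcases Nat.even_or_odd (Fintype.card V) with h | h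
  · exact h
  · obtain ⟨k, hk⟩ := h
    omega

/-- Perfect matching, as a fixed point free involution. -/
theorem exists_mu (h3 : ∀ v, G.degree v = 3) {k : ℕ} (hk : 3 ≤ k) (hc : CycConn G k) :
    ∃ μ : V → V, (∀ v, G.Adj v (μ v)) ∧ ∀ v, μ (μ v) = v := by
  obtain ⟨M, hM⟩ := exists_perfectMatching_of_cut G h3 (by
    intro S T a b c d h1 _
    exfalso
    have hm : (a, b) ∈ cut G S := by rw [h1]; exact mem_singleton_self _
    rw [mem_cut] at hm
    have := three_le_dd G h3 hk hc (S := S) ⟨a, hm.1⟩ ⟨b, mem_compl.2 hm.2.1⟩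
    unfold dd at this
    rw [h1, card_singleton] at this
    omega)
  exact exists_involution G hM

/-- Vertex sets closed under the two non-matching edges at each vertex contain a cycle. -/
theorem not_acyclic_of_closed (h3 : ∀ v, G.degree v = 3) {S : Finset V}
    (hS : S.Nonempty) (hcl : dd G S ≤ S.card) : ¬ (G.induce (S : Set V)).IsAcyclic := by
  intro h
  have := dd_of_acyclic G h3 hS h
  omega

end Pool.Agent.Exp
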