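import Mathlib
import Pool.Agent.Work.MP_974d84_co_exp.Base

/-!
Balls in graphs.
-/

set_option linter.unusedSectionVars false

namespace Pool.Agent.Exp

open Finset SimpleGraph

variable {V : Type*} [Fintype V] [DecidableEq V]

open Classical in
/-- Ball of radius `n` around `v` for the relation `R`. -/
noncomputable def Bl (R : V → V → Prop) : ℕ → V → Finset V
  | 0, v => {v}
  | n + 1, v => univ.filter fun w => w ∈ Bl R n v ∨ ∃ u ∈ Bl R n v, R u w

theorem mem_Bl_zero {R : V → V → Prop} {v w : V} : w ∈ Bl R 0 v ↔ w = v := by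
  simp [Bl]

theorem mem_Bl_succ {R : V → V → Prop} {n : ℕ} {v w : V} :
    w ∈ Bl R (n + 1) v ↔ w ∈ Bl R n v ∨ ∃ u ∈ Bl R n v, R u w := by
  simp [Bl]

theorem Bl_self {R : V → V → Prop} (n : ℕ) (v : V) : v ∈ Bl R n v := by
  induction n with
  | zero => simp [mem_Bl_zero]
  | succ n ih => rw [mem_Bl_succ]; exact Or.inl ih

theorem Bl_mono {R : V → V → Prop} {m n : ℕ} (h : m ≤ n) (v : V) : Bl R m v ⊆ Bl R n v := by
  induction n, h using Nat.le_induction with
  | base => exact Subset.refl _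
  | succ n _ ih => exact ih.trans fun w hw => mem_Bl_succ.2 (Or.inl hw)

theorem Bl_comp {R : V → V → Prop} {m n : ℕ} {u x y : V} (h1 : x ∈ Bl R m u)
    (h2 : y ∈ Bl R n x) : y ∈ Bl R (m + n) u := by
  induction n generalizing y with
  | zero => rw [mem_Bl_zero] at h2; rw [h2]; exact h1
  | succ n ih =>
    rw [mem_Bl_succ] at h2
    rw [← Nat.add_assoc, mem_Bl_succ]
    rcases h2 with h2 | ⟨z, hz, hzy⟩
    · exact Or.inl (ih h2)
    · exact Or.inr ⟨z, ih hz, hzy⟩

theorem Bl_symm {R : V → V → Prop} (hR : ∀ u v, R u v → R v u) {n : ℕ} {v w : V}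
    (h : w ∈ Bl R n v) : v ∈ Bl R n w := by
  induction n generalizing w with
  | zero => rw [mem_Bl_zero] at h ⊢; exact h.symm
  | succ n ih =>
    rw [mem_Bl_succ] at h
    rcases h with h | ⟨u, hu, huw⟩
    · exact Bl_mono (Nat.le_succ n) w (ih h)
    · have h1 : u ∈ Bl R 1 w := mem_Bl_succ.2 (Or.inr ⟨w, mem_Bl_zero.2 rfl, hR _ _ huw⟩)
      rw [Nat.add_comm]
      exact Bl_comp h1 (ih hu)

theorem Bl_rel {R R' : V → V → Prop} (h : ∀ u v, R u v → R' u v) (n : ℕ) (v : V) :
    Bl R n v ⊆ Bl R' n v := by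
  induction n with
  | zero => intro w hw; rw [mem_Bl_zero] at hw ⊢; exact hw
  | succ n ih =>
    intro w hw
    rw [mem_Bl_succ] at hw ⊢
    rcases hw with hw | ⟨u, hu, huw⟩
    · exact Or.inl (ih hw)
    · exact Or.inr ⟨u, ih hu, h _ _ huw⟩

/-- Balls in cubic graphs are small. -/
theorem Bl_card (G : SimpleGraph V) [DecidableRel G.Adj] (h3 : ∀ v, G.degree v = 3) (n : ℕ)
    (v : V) : (Bl G.Adj n v).card + 2 ≤ 3 * 2 ^ n := by
  have hs : ∀ n, (Bl G.Adj (n + 1) v \ Bl G.Adj n v).card ≤ 3 * 2 ^ n := by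
    intro n
    induction n with
    | zero =>
      have : Bl G.Adj (0 + 1) v \ Bl G.Adj 0 v ⊆ G.neighborFinset v := by
        intro w hw
        rw [mem_sdiff, mem_Bl_succ] at hw
        obtain ⟨hw | ⟨u, hu, huw⟩, hw'⟩ := hw
        · exact absurd hw hw'
        · rw [mem_Bl_zero] at hu
          subst hu
          rw [mem_neighborFinset]; exact huw
      refine (card_le_card this).trans ?_
      rw [card_neighborFinset_eq_degree, h3]; norm_num
    | succ n ih =>
      have : Bl G.Adj (n + 1 + 1) v \ Bl G.Adj (n + 1) v ⊆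
          (Bl G.Adj (n + 1) v \ Bl G.Adj n v).biUnion fun u =>
            G.neighborFinset u \ Bl G.Adj (n + 1) v := by
        intro w hw
        rw [mem_sdiff, mem_Bl_succ] at hw
        obtain ⟨hw | ⟨u, hu, huw⟩, hw'⟩ := hw
        · exact absurd hw hw'
        · rw [mem_biUnion]
          refine ⟨u, mem_sdiff.2 ⟨hu, fun hu' => hw' ?_⟩, mem_sdiff.2 ⟨?_, hw'⟩⟩
          · exact mem_Bl_succ.2 (Or.inr ⟨u, hu', huw⟩)
          · rw [mem_neighborFinset]; exact huw
      have h2 : ∀ u ∈ Bl G.Adj (n + 1) v \ Bl G.Adj n v,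
          (G.neighborFinset u \ Bl G.Adj (n + 1) v).card ≤ 2 := by
        intro u hu
        rw [mem_sdiff, mem_Bl_succ] at hu
        obtain ⟨hu | ⟨x, hx, hxu⟩, hu'⟩ := hu
        · exact absurd hu hu'
        · have h4 : G.neighborFinset u \ Bl G.Adj (n + 1) v ⊆ (G.neighborFinset u).erase x := by
            intro w hw
            rw [mem_sdiff] at hw
            rw [mem_erase]
            refine ⟨?_, hw.1⟩
            rintro rfl
            exact hw.2 (Bl_mono (Nat.le_succ n) v hx)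
          refine (card_le_card h4).trans ?_
          rw [card_erase_of_mem (by rw [mem_neighborFinset]; exact hxu.symm),
            card_neighborFinset_eq_degree, h3]
      refine (card_le_card this).trans (card_biUnion_le.trans ?_)
      refine (sum_le_sum h2).trans ?_
      rw [sum_const, smul_eq_mul]
      calc (Bl G.Adj (n + 1) v \ Bl G.Adj n v).card * 2 ≤ 3 * 2 ^ n * 2 := by gcongr
        _ = 3 * 2 ^ (n + 1) := by ring
  induction n with
  | zero => simp [Bl]
  | succ n ih =>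
    have h1 : (Bl G.Adj (n + 1) v).card
        = (Bl G.Adj n v).card + (Bl G.Adj (n + 1) v \ Bl G.Adj n v).card := by
      have hsub : Bl G.Adj n v ⊆ Bl G.Adj (n + 1) v := Bl_mono (Nat.le_succ n) v
      rw [card_sdiff_of_subset hsub]
      have := card_le_card hsub
      omega
    have h2 := hs n
    have h4 : 3 * 2 ^ (n + 1) = 3 * 2 ^ n + 3 * 2 ^ n := by ring
    omega

/-- Adjacency inside a vertex set. -/
def RW (G : SimpleGraph V) (W : Finset V) (u w : V) : Prop := G.Adj u w ∧ u ∈ W ∧ w ∈ W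

theorem Bl_RW_sub {G : SimpleGraph V} {W : Finset V} {v : V} (hv : v ∈ W) (n : ℕ) :
    Bl (RW G W) n v ⊆ W := by
  induction n with
  | zero => intro w hw; rw [mem_Bl_zero] at hw; rw [hw]; exact hv
  | succ n ih =>
    intro w hw
    rw [mem_Bl_succ] at hw
    rcases hw with hw | ⟨u, _, huw⟩
    · exact ih hw
    · exact huw.2.2

/-- `W` cannot be split in two parts without an edge between them. -/
def Joined (G : SimpleGraph V) (W : Finset V) : Prop :=
  ∀ A ⊆ W, A.Nonempty → A ≠ W → ∃ x ∈ A, ∃ y ∈ W, y ∉ A ∧ G.Adj x y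

theorem Bl_grow {G : SimpleGraph V} {W : Finset V} (hW : Joined G W) {v : V} (hv : v ∈ W) (n : ℕ)
    (hn : ¬ W ⊆ Bl (RW G W) n v) : n + 1 ≤ (Bl (RW G W) n v).card := by
  induction n with
  | zero => simp [Bl]
  | succ n ih =>
    have h1 : ¬ W ⊆ Bl (RW G W) n v := fun h => hn (h.trans (Bl_mono (Nat.le_succ n) v))
    have h2 := ih h1
    obtain ⟨x, hx, y, hy, hyA, hxy⟩ := hW (Bl (RW G W) n v) (Bl_RW_sub hv n) ⟨v, Bl_self n v⟩
      (fun h => h1 (by rw [h]))
    have h3 : y ∈ Bl (RW G W) (n + 1) v :=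
      mem_Bl_succ.2 (Or.inr ⟨x, hx, hxy, Bl_RW_sub hv n hx, hy⟩)
    have h4 : Bl (RW G W) n v ⊂ Bl (RW G W) (n + 1) v :=
      (ssubset_iff_of_subset (Bl_mono (Nat.le_succ n) v)).2 ⟨y, h3, hyA⟩
    have := card_lt_card h4
    omega

end Pool.Agent.Exp
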