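import Mathlib

/-!
Conflict-free connecting sets of edges: a version for graphic matroids of Haxell's theorem on
independent transversals.
-/

set_option linter.unusedSectionVars false

namespace Pool.Agent.Exp

open Finset

variable {V E : Type*} [Fintype V] [DecidableEq V] [Fintype E] [DecidableEq E]

/-- Connectivity by a fixed relation `r0` and the edges in `A`. -/
def Cn (r0 : V → V → Prop) (a b : E → V) (A : Finset E) (u v : V) : Prop :=
  Relation.EqvGen (fun u v => r0 u v ∨ ∃ e ∈ A, u = a e ∧ v = b e) u v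

variable {r0 : V → V → Prop} {a b : E → V}

theorem Cn.base {A : Finset E} {u v : V} (h : r0 u v) : Cn r0 a b A u v :=
  Relation.EqvGen.rel _ _ (Or.inl h)

theorem Cn.edge {A : Finset E} {e : E} (he : e ∈ A) : Cn r0 a b A (a e) (b e) :=
  Relation.EqvGen.rel _ _ (Or.inr ⟨e, he, rfl, rfl⟩)

theorem Cn.refl (A : Finset E) (u : V) : Cn r0 a b A u u := Relation.EqvGen.refl u

theorem Cn.symm {A : Finset E} {u v : V} (h : Cn r0 a b A u v) : Cn r0 a b A v u :=
  Relation.EqvGen.symm _ _ h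

theorem Cn.trans {A : Finset E} {u v w : V} (h : Cn r0 a b A u v) (h' : Cn r0 a b A v w) :
    Cn r0 a b A u w := Relation.EqvGen.trans _ _ _ h h'

/-- Any equivalence relation containing the generators contains `Cn`. -/
theorem Cn.le_of {A : Finset E} (R : V → V → Prop) (hR : Equivalence R)
    (h0 : ∀ u v, r0 u v → R u v) (hA : ∀ e ∈ A, R (a e) (b e)) {u v : V}
    (h : Cn r0 a b A u v) : R u v := by
  unfold Cn at h
  induction h with
  | rel x y h =>
    rcases h with h | ⟨e, he, rfl, rfl⟩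
    · exact h0 _ _ h
    · exact hA e he
  | refl x => exact hR.refl x
  | symm x y _ ih => exact hR.symm ih
  | trans x y z _ _ ih1 ih2 => exact hR.trans ih1 ih2

theorem Cn.mono {A B : Finset E} (h : A ⊆ B) {u v : V} (huv : Cn r0 a b A u v) :
    Cn r0 a b B u v :=
  Cn.le_of (Cn r0 a b B) ⟨Cn.refl B, Cn.symm, Cn.trans⟩ (fun _ _ => Cn.base)
    (fun _ he => Cn.edge (h he)) huv

theorem Cn.insert_iff {A : Finset E} {w : E} {u v : V} :
    Cn r0 a b (insert w A) u v ↔ Cn r0 a b A u v ∨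
      (Cn r0 a b A u (a w) ∧ Cn r0 a b A (b w) v) ∨ (Cn r0 a b A u (b w) ∧ Cn r0 a b A (a w) v) := by
  constructor
  · intro h
    refine Cn.le_of (r0 := r0) (a := a) (b := b) (A := insert w A)
      (fun u v => Cn r0 a b A u v ∨
      (Cn r0 a b A u (a w) ∧ Cn r0 a b A (b w) v) ∨ (Cn r0 a b A u (b w) ∧ Cn r0 a b A (a w) v))
      ⟨?_, ?_, ?_⟩ ?_ ?_ h
    · intro x; exact Or.inl (Cn.refl A x)
    · rintro x y (h | ⟨h1, h2⟩ | ⟨h1, h2⟩)
      · exact Or.inl h.symm
      · exact Or.inr (Or.inr ⟨h2.symm, h1.symm⟩)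
      · exact Or.inr (Or.inl ⟨h2.symm, h1.symm⟩)
    · rintro x y z (h | ⟨h1, h2⟩ | ⟨h1, h2⟩) (h' | ⟨h1', h2'⟩ | ⟨h1', h2'⟩)
      · exact Or.inl (h.trans h')
      · exact Or.inr (Or.inl ⟨h.trans h1', h2'⟩)
      · exact Or.inr (Or.inr ⟨h.trans h1', h2'⟩)
      · exact Or.inr (Or.inl ⟨h1, h2.trans h'⟩)
      · exact Or.inr (Or.inl ⟨h1, h2'⟩)
      · exact Or.inl (h1.trans h2')
      · exact Or.inr (Or.inr ⟨h1, h2.trans h'⟩)
      · exact Or.inl (h1.trans h2')
      · exact Or.inr (Or.inr ⟨h1, h2'⟩)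
    · intro x y h; exact Or.inl (Cn.base h)
    · intro e he
      rcases mem_insert.1 he with rfl | he
      · exact Or.inr (Or.inl ⟨Cn.refl A _, Cn.refl A _⟩)
      · exact Or.inl (Cn.edge he)
  · have hw : Cn r0 a b (insert w A) (a w) (b w) := Cn.edge (mem_insert_self w A)
    have hs := subset_insert w A
    rintro (h | ⟨h1, h2⟩ | ⟨h1, h2⟩)
    · exact h.mono hs
    · exact ((h1.mono hs).trans hw).trans (h2.mono hs)
    · exact ((h1.mono hs).trans hw.symm).trans (h2.mono hs)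

/-- Exchange. -/
theorem Cn.exchange {A : Finset E} {w e : E} (h1 : Cn r0 a b (insert w A) (a e) (b e))
    (h2 : ¬ Cn r0 a b A (a e) (b e)) : Cn r0 a b (insert e A) (a w) (b w) := by
  have hs := subset_insert e A
  have he : Cn r0 a b (insert e A) (a e) (b e) := Cn.edge (mem_insert_self e A)
  rcases Cn.insert_iff.1 h1 with h | ⟨h3, h4⟩ | ⟨h3, h4⟩
  · exact absurd h h2
  · exact (((h3.mono hs).symm).trans he).trans (h4.mono hs).symm
  · exact ((h4.mono hs).trans he.symm).trans (h3.mono hs)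

theorem Cn.insert_of {A : Finset E} {w : E} (hw : Cn r0 a b A (a w) (b w)) {u v : V} :
    Cn r0 a b (insert w A) u v ↔ Cn r0 a b A u v := by
  rw [Cn.insert_iff]
  constructor
  · rintro (h | ⟨h1, h2⟩ | ⟨h1, h2⟩)
    · exact h
    · exact (h1.trans hw).trans h2
    · exact (h1.trans hw.symm).trans h2
  · exact Or.inl

/-- The setoid of components. -/
def cnS (r0 : V → V → Prop) (a b : E → V) (A : Finset E) : Setoid V :=
  ⟨Cn r0 a b A, Cn.refl A, Cn.symm, Cn.trans⟩

/-- The number of components. -/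
noncomputable def cc (r0 : V → V → Prop) (a b : E → V) (A : Finset E) : ℕ :=
  Nat.card (Quotient (cnS r0 a b A))

theorem card_quotient_lt {s r : Setoid V} (h : ∀ u v, s u v → r u v) {p q : V} (hr : r p q)
    (hs : ¬ s p q) : Nat.card (Quotient r) < Nat.card (Quotient s) := by
  classical
  set f : Quotient s → Quotient r := Quotient.map' id (fun u v h' => h u v h') with hf
  have hsurj : Function.Surjective f := by
    intro x
    obtain ⟨v, rfl⟩ := Quotient.exists_rep x
    exact ⟨Quotient.mk _ v, rfl⟩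
  have hle : Nat.card (Quotient r) ≤ Nat.card (Quotient s) :=
    Nat.card_le_card_of_surjective f hsurj
  refine lt_of_le_of_ne hle fun heq => ?_
  have hbij : Function.Bijective f := by
    rw [Nat.bijective_iff_surjective_and_card]
    exact ⟨hsurj, heq.symm⟩
  have h1 : f (Quotient.mk _ p) = f (Quotient.mk _ q) := Quotient.sound hr
  exact hs (Quotient.exact (hbij.1 h1))

theorem cc_eq {A B : Finset E} (h : ∀ u v, Cn r0 a b A u v ↔ Cn r0 a b B u v) :
    cc r0 a b A = cc r0 a b B := by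
  have : cnS r0 a b A = cnS r0 a b B := Setoid.ext h
  unfold cc; rw [this]

theorem cc_lt {A B : Finset E} (hs : A ⊆ B) {p q : V} (h1 : Cn r0 a b B p q)
    (h2 : ¬ Cn r0 a b A p q) : cc r0 a b B < cc r0 a b A :=
  card_quotient_lt (s := cnS r0 a b A) (r := cnS r0 a b B) (fun _ _ h => Cn.mono hs h) h1 h2

theorem cc_anti {A B : Finset E} (hs : A ⊆ B) : cc r0 a b B ≤ cc r0 a b A := by
  by_cases h : ∀ u v, Cn r0 a b B u v → Cn r0 a b A u v
  · exact (cc_eq fun u v => ⟨h u v, Cn.mono hs⟩).le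
  · push Not at h
    obtain ⟨u, v, h1, h2⟩ := h
    exact (cc_lt hs h1 h2).le

/-- Removing essential edges increases the number of components. -/
theorem cc_sdiff {τ : Finset E} (hess : ∀ e ∈ τ, ¬ Cn r0 a b (τ.erase e) (a e) (b e))
    (U : Finset E) (hU : U ⊆ τ) : cc r0 a b τ + U.card ≤ cc r0 a b (τ \ U) := by
  induction U using Finset.induction_on with
  | empty => simp
  | insert w U hw ih =>
    rw [card_insert_of_notMem hw]
    have h1 := ih ((subset_insert w U).trans hU)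
    have hwτ : w ∈ τ := hU (mem_insert_self w U)
    have hlt : cc r0 a b (τ \ U) < cc r0 a b (τ \ insert w U) := by
      refine cc_lt (sdiff_subset_sdiff le_rfl (subset_insert w U)) (p := a w) (q := b w)
        (Cn.edge (mem_sdiff.2 ⟨hwτ, hw⟩)) fun h => hess w hwτ (h.mono ?_)
      intro e he
      rw [mem_sdiff, mem_insert, not_or] at he
      exact mem_erase.2 ⟨he.2.1, he.1⟩
    omega

/-- A set `W` of edges separating the ends of `e` contains an edge that can be exchanged. -/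
theorem exists_swap {A B : Finset E} {e : E} (hAB : A ⊆ B) (h1 : Cn r0 a b B (a e) (b e))
    (h2 : ¬ Cn r0 a b A (a e) (b e)) :
    ∃ w ∈ B \ A, ∃ C : Finset E, A ⊆ C ∧ C ⊆ B ∧ w ∉ C ∧
      Cn r0 a b (insert w C) (a e) (b e) ∧ ¬ Cn r0 a b C (a e) (b e) := by
  classical
  obtain ⟨C, hC, hmax⟩ := (univ.filter fun C : Finset E => A ⊆ C ∧ C ⊆ B ∧
    ¬ Cn r0 a b C (a e) (b e)).exists_max_image card ⟨A, by simp [hAB, h2]⟩
  rw [mem_filter] at hC
  obtain ⟨-, h3, h4, h5⟩ := hC
  have h6 : C ≠ B := fun h => h5 (h ▸ h1)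
  obtain ⟨w, hw, hwC⟩ : ∃ w ∈ B, w ∉ C := by
    by_contra hcon
    push Not at hcon
    exact h6 (Subset.antisymm h4 hcon)
  refine ⟨w, mem_sdiff.2 ⟨hw, fun h => hwC (h3 h)⟩, C, h3, h4, hwC, ?_, h5⟩
  by_contra hcon
  have := hmax (insert w C) (by
    rw [mem_filter]
    exact ⟨mem_univ _, h3.trans (subset_insert w C), insert_subset hw h4, hcon⟩)
  rw [card_insert_of_notMem hwC] at this
  omega

open Classical in
/-- The edges of `τ` in conflict with `e`. -/
noncomputable def Wt (conf : E → E → Prop) (τ : Finset E) (e : E) : Finset E := τ.filter (conf e)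

open Classical in
/-- The edges of `τ` in conflict with one of `x 0, ..., x (i - 1)`. -/
noncomputable def Ut (conf : E → E → Prop) (τ : Finset E) (x : ℕ → E) (i : ℕ) : Finset E :=
  τ.filter (fun w => ∃ j < i, conf (x j) w)

/-- Conflict-free sets. -/
def CF (conf : E → E → Prop) (τ : Finset E) : Prop := ∀ e ∈ τ, ∀ e' ∈ τ, e ≠ e' → ¬ conf e e'

/-- Conflict-free sets with the least number of components, and then of least size. -/
def Opt (r0 : V → V → Prop) (a b : E → V) (conf : E → E → Prop) (τ : Finset E) : Prop :=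
  CF conf τ ∧ ∀ τ', CF conf τ' → cc r0 a b τ ≤ cc r0 a b τ' ∧
    (cc r0 a b τ' = cc r0 a b τ → τ.card ≤ τ'.card)

/-- Valid sequences. -/
def Valid (r0 : V → V → Prop) (a b : E → V) (conf : E → E → Prop) (τ : Finset E) (x : ℕ → E)
    (k : ℕ) : Prop :=
  ∀ i < k, ¬ Cn r0 a b (τ \ Ut conf τ x i) (a (x i)) (b (x i)) ∧
    (∀ j < i, ¬ conf (x j) (x i) ∧ x j ≠ x i) ∧ (∀ u ∈ Ut conf τ x i, ¬ conf u (x i) ∧ u ≠ x i)

/-- States. -/
def St (r0 : V → V → Prop) (a b : E → V) (conf : E → E → Prop) (k : ℕ) (s : ℕ → ℕ) : Prop :=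
  ∃ (τ : Finset E) (x : ℕ → E), Opt r0 a b conf τ ∧ Valid r0 a b conf τ x k ∧
    ∀ i < k, (Wt conf τ (x i)).card = s i

variable {conf : E → E → Prop}

theorem mem_Ut {τ : Finset E} {x : ℕ → E} {i : ℕ} {w : E} :
    w ∈ Ut conf τ x i ↔ w ∈ τ ∧ ∃ j < i, conf (x j) w := by
  classical exact mem_filter

theorem mem_Wt {τ : Finset E} {e : E} {w : E} : w ∈ Wt conf τ e ↔ w ∈ τ ∧ conf e w := by
  classical exact mem_filter

theorem Ut_zero (τ : Finset E) (x : ℕ → E) : Ut conf τ x 0 = ∅ := by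
  ext w; simp [mem_Ut]

theorem Ut_succ (τ : Finset E) (x : ℕ → E) (i : ℕ) :
    Ut conf τ x (i + 1) = Ut conf τ x i ∪ Wt conf τ (x i) := by
  ext w
  simp only [mem_Ut, mem_Wt, mem_union, Nat.lt_succ_iff]
  constructor
  · rintro ⟨h1, j, h2, h3⟩
    rcases Nat.lt_or_eq_of_le h2 with h4 | rfl
    · exact Or.inl ⟨h1, j, h4, h3⟩
    · exact Or.inr ⟨h1, h3⟩
  · rintro (⟨h1, j, h2, h3⟩ | ⟨h1, h3⟩)
    · exact ⟨h1, j, h2.le, h3⟩
    · exact ⟨h1, i, le_rfl, h3⟩

theorem Ut_mono (τ : Finset E) (x : ℕ → E) {i j : ℕ} (h : i ≤ j) :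
    Ut conf τ x i ⊆ Ut conf τ x j := by
  intro w hw
  rw [mem_Ut] at *
  obtain ⟨h1, l, h2, h3⟩ := hw
  exact ⟨h1, l, by omega, h3⟩

theorem Ut_congr (τ : Finset E) {x x' : ℕ → E} {i : ℕ} (h : ∀ j < i, x j = x' j) :
    Ut conf τ x i = Ut conf τ x' i := by
  ext w
  rw [mem_Ut, mem_Ut]
  constructor
  · rintro ⟨h0, j, h1, h2⟩; exact ⟨h0, j, h1, h j h1 ▸ h2⟩
  · rintro ⟨h0, j, h1, h2⟩; exact ⟨h0, j, h1, (h j h1).symm ▸ h2⟩

theorem Ut_subset (τ : Finset E) (x : ℕ → E) (i : ℕ) : Ut conf τ x i ⊆ τ := by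
  intro w hw; exact (mem_Ut.1 hw).1

theorem Ut_disj (hsymm : ∀ e e', conf e e' → conf e' e) {τ : Finset E} {x : ℕ → E} {k : ℕ}
    (h : Valid r0 a b conf τ x k) {i : ℕ} (hi : i < k) :
    Disjoint (Ut conf τ x i) (Wt conf τ (x i)) := by
  rw [Finset.disjoint_left]
  intro w hw hw'
  rw [mem_Wt] at hw'
  exact ((h i hi).2.2 w hw).1 (hsymm _ _ hw'.2)

theorem Ut_card (hsymm : ∀ e e', conf e e' → conf e' e) {τ : Finset E} {x : ℕ → E} {k : ℕ}
    (h : Valid r0 a b conf τ x k) (hs : ∀ i < k, 1 ≤ (Wt conf τ (x i)).card) :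
    ∀ i ≤ k, i ≤ (Ut conf τ x i).card := by
  intro i
  induction i with
  | zero => intro _; exact Nat.zero_le _
  | succ i ih =>
    intro hi
    rw [Ut_succ, card_union_of_disjoint (Ut_disj hsymm h (by omega))]
    have := ih (by omega)
    have := hs i (by omega)
    omega

theorem Opt.ess {τ : Finset E} (h : Opt r0 a b conf τ) :
    ∀ e ∈ τ, ¬ Cn r0 a b (τ.erase e) (a e) (b e) := by
  intro e he hcon
  have h1 : ∀ u v, Cn r0 a b τ u v ↔ Cn r0 a b (τ.erase e) u v := by
    intro u v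
    have := Cn.insert_of (r0 := r0) (a := a) (b := b) hcon (u := u) (v := v)
    rwa [insert_erase he] at this
  have h2 := h.2 (τ.erase e) (fun x hx y hy => h.1 x (mem_of_mem_erase hx) y (mem_of_mem_erase hy))
  have h3 := h2.2 (cc_eq h1).symm
  rw [card_erase_of_mem he] at h3
  have := card_pos.2 ⟨e, he⟩
  omega

theorem exists_opt : ∃ τ, Opt r0 a b conf τ := by
  classical
  obtain ⟨τ, h1, h2⟩ := (univ.filter fun τ : Finset E => CF conf τ).exists_min_image
    (fun τ => cc r0 a b τ * (Fintype.card E + 1) + τ.card)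
    ⟨∅, by rw [mem_filter]; exact ⟨mem_univ _, fun e he => absurd he (notMem_empty e)⟩⟩
  rw [mem_filter] at h1
  refine ⟨τ, h1.2, fun τ' hτ' => ?_⟩
  have h3 := h2 τ' (by rw [mem_filter]; exact ⟨mem_univ _, hτ'⟩)
  have h4 := card_le_univ τ
  have h5 := card_le_univ τ'
  refine ⟨?_, fun h => ?_⟩
  · by_contra hcon
    push Not at hcon
    have : (cc r0 a b τ' + 1) * (Fintype.card E + 1) ≤ cc r0 a b τ * (Fintype.card E + 1) :=
      Nat.mul_le_mul_right _ hcon
    nlinarith
  · rw [h] at h3; omega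

open Classical in
/-- One more step is possible. -/
theorem St.extend (hsymm : ∀ e e', conf e e' → conf e' e) {D : ℕ} (hD0 : 1 ≤ D)
    (hD : ∀ e, (univ.filter fun e' => conf e e' ∨ e = e').card ≤ D)
    (hcr : ∀ A : Finset E, 2 ≤ cc r0 a b A →
      2 * D * cc r0 a b A ≤ (univ.filter fun e => ¬ Cn r0 a b A (a e) (b e)).card)
    (hcc : ∀ τ, Opt r0 a b conf τ → 2 ≤ cc r0 a b τ)
    {k : ℕ} {s : ℕ → ℕ} (h : St r0 a b conf k s) (hs : ∀ i < k, 1 ≤ s i) :
    ∃ s' : ℕ → ℕ, St r0 a b conf (k + 1) s' ∧ ∀ i < k, s' i = s i := by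
  classical
  obtain ⟨τ, x, hopt, hval, hsz⟩ := h
  set U := Ut conf τ x k with hU
  have hUcard : k ≤ U.card := Ut_card hsymm hval (fun i hi => by rw [hsz i hi]; exact hs i hi) k le_rfl
  set Fb : Finset E := ((range k).biUnion fun j => univ.filter fun e' => conf (x j) e' ∨ x j = e') ∪
    (U.biUnion fun u => univ.filter fun e' => conf u e' ∨ u = e') with hFb
  have hFbcard : Fb.card ≤ 2 * D * U.card := by
    have h1 : ((range k).biUnion fun j => univ.filter fun e' => conf (x j) e' ∨ x j = e').card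
        ≤ k * D := by
      have := card_biUnion_le_card_mul (range k)
        (fun j => univ.filter fun e' => conf (x j) e' ∨ x j = e') D (fun j _ => hD (x j))
      rwa [card_range] at this
    have h2 : (U.biUnion fun u => univ.filter fun e' => conf u e' ∨ u = e').card ≤ U.card * D :=
      card_biUnion_le_card_mul _ _ D (fun u _ => hD u)
    have h3 : Fb.card ≤ k * D + U.card * D := (card_union_le _ _).trans (add_le_add h1 h2)
    have h4 : k * D ≤ U.card * D := Nat.mul_le_mul_right _ hUcard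
    nlinarith
  have h5 := cc_sdiff hopt.ess U (Ut_subset τ x k)
  have h6 := hcc τ hopt
  have h7 := hcr (τ \ U) (by omega)
  have h8 : 2 * D * (U.card + 2) ≤ 2 * D * cc r0 a b (τ \ U) :=
    Nat.mul_le_mul_left _ (by omega)
  obtain ⟨e, he, heF⟩ : ∃ e ∈ univ.filter fun e => ¬ Cn r0 a b (τ \ U) (a e) (b e), e ∉ Fb := by
    by_contra hcon
    push Not at hcon
    have := card_le_card (show (univ.filter fun e => ¬ Cn r0 a b (τ \ U) (a e) (b e)) ⊆ Fb from
      fun e he => hcon e he)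
    nlinarith
  rw [mem_filter] at he
  simp only [hFb, mem_union, mem_biUnion, mem_range, mem_filter, mem_univ, true_and, not_or,
    not_exists, not_and] at heF
  set x' : ℕ → E := fun i => if i < k then x i else e with hx'
  have hx1 : ∀ i < k, x' i = x i := fun i hi => by simp [hx', hi]
  have hx2 : x' k = e := by simp [hx']
  refine ⟨fun i => if i < k then s i else (Wt conf τ e).card, ⟨τ, x', hopt, ?_, ?_⟩, ?_⟩
  · intro i hi
    have hUt : Ut conf τ x' i = Ut conf τ x i := Ut_congr τ fun j hj => hx1 j (by omega)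
    rw [hUt]
    rcases Nat.lt_or_eq_of_le (Nat.lt_succ_iff.1 hi) with h | rfl
    · rw [hx1 i h]
      refine ⟨(hval i h).1, fun j hj => ?_, (hval i h).2.2⟩
      rw [hx1 j (by omega)]
      exact (hval i h).2.1 j hj
    · rw [hx2]
      refine ⟨he.2, fun j hj => ?_, fun u hu => ?_⟩
      · rw [hx1 j hj]
        exact heF.1 j hj
      · exact heF.2 u hu
  · intro i hi
    rcases Nat.lt_or_eq_of_le (Nat.lt_succ_iff.1 hi) with h | rfl
    · rw [hx1 i h]; simp [h, hsz i h]
    · rw [hx2]; simp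
  · intro i hi; simp [hi]

/-- If the last edge of a state has no conflicts, an exchange gives a smaller state. -/
theorem St.swap (hsymm : ∀ e e', conf e e' → conf e' e)
    {k : ℕ} {s : ℕ → ℕ} (h : St r0 a b conf (k + 1) s) (hs : s k = 0) :
    ∃ j < k, ∃ s' : ℕ → ℕ, St r0 a b conf (j + 1) s' ∧ (∀ i < j, s' i = s i) ∧ s' j < s j := by
  classical
  obtain ⟨τ, x, hopt, hval, hsz⟩ := h
  set e := x k with he
  have hW : Wt conf τ e = ∅ := by
    rw [← card_eq_zero, hsz k (Nat.lt_succ_self k), hs]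
  have hWe : ∀ w ∈ τ, ¬ conf e w := by
    intro w hw hc
    have : w ∈ Wt conf τ e := mem_Wt.2 ⟨hw, hc⟩
    rw [hW] at this
    exact absurd this (notMem_empty _)
  have hk := hval k (Nat.lt_succ_self k)
  have heτ : e ∉ τ := by
    intro hc
    by_cases hU : e ∈ Ut conf τ x k
    · exact (hk.2.2 e hU).2 rfl
    · exact hk.1 (Cn.edge (mem_sdiff.2 ⟨hc, hU⟩))
  have hCF : CF conf (insert e τ) := by
    intro y hy z hz hyz
    rcases mem_insert.1 hy with rfl | hy <;> rcases mem_insert.1 hz with rfl | hz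
    · exact absurd rfl hyz
    · exact hWe z hz
    · exact fun hc => hWe y hy (hsymm _ _ hc)
    · exact hopt.1 y hy z hz hyz
  have hconn : Cn r0 a b τ (a e) (b e) := by
    by_contra hcon
    have h1 := (hopt.2 _ hCF).1
    have h2 : cc r0 a b (insert e τ) < cc r0 a b τ :=
      cc_lt (subset_insert e τ) (Cn.edge (mem_insert_self e τ)) hcon
    omega
  -- the index
  have hex : ∃ j, ¬ Cn r0 a b (τ \ Ut conf τ x (j + 1)) (a e) (b e) := by
    refine ⟨k, fun hcon => hk.1 (hcon.mono ?_)⟩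
    exact sdiff_subset_sdiff le_rfl (Ut_mono τ x (Nat.le_succ k))
  set j := Nat.find hex with hj
  have hj1 : ¬ Cn r0 a b (τ \ Ut conf τ x (j + 1)) (a e) (b e) := Nat.find_spec hex
  have hj2 : Cn r0 a b (τ \ Ut conf τ x j) (a e) (b e) := by
    rcases Nat.eq_zero_or_pos j with h0 | h0
    · rw [h0, Ut_zero, sdiff_empty]; exact hconn
    · have := Nat.find_min hex (m := j - 1) (by omega)
      rw [not_not, Nat.sub_add_cancel h0] at this
      exact this
  have hjk : j < k := by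
    by_contra hcon
    push Not at hcon
    exact hk.1 (hj2.mono (sdiff_subset_sdiff le_rfl (Ut_mono τ x hcon)))
  obtain ⟨w, hw, C, hC1, hC2, hwC, hC3, hC4⟩ := exists_swap
    (sdiff_subset_sdiff le_rfl (Ut_mono τ x (Nat.le_succ j))) hj2 hj1
  have hwτ : w ∈ τ := (mem_sdiff.1 (mem_sdiff.1 hw).1).1
  have hwU : w ∉ Ut conf τ x j := (mem_sdiff.1 (mem_sdiff.1 hw).1).2
  have hwW : w ∈ Wt conf τ (x j) := by
    have h1 : w ∈ Ut conf τ x (j + 1) := by
      by_contra hcon
      exact (mem_sdiff.1 hw).2 (mem_sdiff.2 ⟨hwτ, hcon⟩)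
    rw [Ut_succ, mem_union] at h1
    exact h1.resolve_left hwU
  have hex1 := Cn.exchange hC3 hC4
  have hwe : w ≠ e := fun h => heτ (h ▸ hwτ)
  set τ' : Finset E := insert e (τ.erase w) with hτ'
  have hUt : ∀ i ≤ j, Ut conf τ' x i = Ut conf τ x i := by
    intro i hi
    ext y
    simp only [mem_Ut, hτ', mem_insert, mem_erase]
    constructor
    · rintro ⟨rfl | ⟨h1, h2⟩, l, h3, h4⟩
      · exact absurd h4 (hk.2.1 l (by omega)).1
      · exact ⟨h2, l, h3, h4⟩
    · rintro ⟨h1, l, h3, h4⟩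
      refine ⟨Or.inr ⟨?_, h1⟩, l, h3, h4⟩
      rintro rfl
      exact hwU (mem_Ut.2 ⟨h1, l, by omega, h4⟩)
  have hconn' : ∀ i ≤ j, ∀ u v, Cn r0 a b (τ' \ Ut conf τ x i) u v ↔
      Cn r0 a b (τ \ Ut conf τ x i) u v := by
    intro i hi u v
    set B := (τ \ Ut conf τ x i).erase w with hB
    have hwUi : w ∉ Ut conf τ x i := fun h => hwU (Ut_mono τ x hi h)
    have heUi : e ∉ Ut conf τ x i := fun h => heτ (Ut_subset τ x i h)
    have h1 : τ' \ Ut conf τ x i = insert e B := by
      ext y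
      simp only [hτ', hB, mem_sdiff, mem_insert, mem_erase]
      constructor
      · rintro ⟨rfl | ⟨h1, h2⟩, h3⟩
        · exact Or.inl rfl
        · exact Or.inr ⟨h1, h2, h3⟩
      · rintro (rfl | ⟨h1, h2, h3⟩)
        · exact ⟨Or.inl rfl, heUi⟩
        · exact ⟨Or.inr ⟨h1, h2⟩, h3⟩
    have h2 : τ \ Ut conf τ x i = insert w B := by
      rw [hB, insert_erase (mem_sdiff.2 ⟨hwτ, hwUi⟩)]
    have hCB : C ⊆ B := by
      intro y hy
      have hy' := hC2 hy
      rw [mem_sdiff] at hy'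
      refine mem_erase.2 ⟨fun h => hwC (h ▸ hy), mem_sdiff.2 ⟨hy'.1, fun h => hy'.2 ?_⟩⟩
      exact Ut_mono τ x hi h
    have h3 : Cn r0 a b (insert e B) (a w) (b w) := hex1.mono (insert_subset_insert e hCB)
    have h4 : Cn r0 a b (insert w B) (a e) (b e) := hC3.mono (insert_subset_insert w hCB)
    rw [h1, h2]
    rw [← Cn.insert_of h3, ← Cn.insert_of h4, insert_comm]
  have hcc' : cc r0 a b τ' = cc r0 a b τ := by
    refine cc_eq fun u v => ?_
    have := hconn' 0 (Nat.zero_le _) u v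
    rwa [Ut_zero, sdiff_empty, sdiff_empty] at this
  have hcard' : τ'.card = τ.card := by
    rw [hτ', card_insert_of_notMem (fun h => heτ (mem_of_mem_erase h)), card_erase_of_mem hwτ]
    have := card_pos.2 ⟨w, hwτ⟩
    omega
  have hopt' : Opt r0 a b conf τ' := by
    refine ⟨fun y hy z hz hyz => ?_, fun σ hσ => ?_⟩
    · refine hCF y ?_ z ?_ hyz
      · exact insert_subset_insert e (erase_subset w τ) hy
      · exact insert_subset_insert e (erase_subset w τ) hz
    · rw [hcc', hcard']; exact hopt.2 σ hσ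
  have hWt : ∀ i < j, Wt conf τ' (x i) = Wt conf τ (x i) := by
    intro i hi
    have h1 : w ∉ Wt conf τ (x i) := by
      intro h
      exact hwU (Ut_mono τ x (show i + 1 ≤ j by omega) (by rw [Ut_succ]; exact mem_union_right _ h))
    ext y
    simp only [mem_Wt, hτ', mem_insert, mem_erase]
    constructor
    · rintro ⟨rfl | ⟨h2, h3⟩, h4⟩
      · exact absurd h4 (hk.2.1 i (by omega)).1
      · exact ⟨h3, h4⟩
    · rintro ⟨h2, h3⟩
      refine ⟨Or.inr ⟨?_, h2⟩, h3⟩
      rintro rfl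
      exact h1 (mem_Wt.2 ⟨h2, h3⟩)
  have hWj : Wt conf τ' (x j) = (Wt conf τ (x j)).erase w := by
    ext y
    simp only [mem_Wt, hτ', mem_insert, mem_erase]
    constructor
    · rintro ⟨rfl | ⟨h2, h3⟩, h4⟩
      · exact absurd h4 (hk.2.1 j hjk).1
      · exact ⟨h2, h3, h4⟩
    · rintro ⟨h2, h3, h4⟩
      exact ⟨Or.inr ⟨h2, h3⟩, h4⟩
  refine ⟨j, hjk, fun i => (Wt conf τ' (x i)).card, ⟨τ', x, hopt', ?_, fun _ _ => rfl⟩, ?_, ?_⟩
  · intro i hi
    have hij : i ≤ j := by omega
    rw [hUt i hij, hconn' i hij]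
    exact hval i (by omega)
  · intro i hi
    simp only
    rw [hWt i hi, hsz i (by omega)]
  · simp only
    rw [hWj, card_erase_of_mem hwW, ← hsz j (by omega)]
    have := card_pos.2 ⟨w, hwW⟩
    omega

open Classical in
/-- A conflict-free connecting set. -/
theorem exists_conflictFree (hsymm : ∀ e e', conf e e' → conf e' e) {D : ℕ} (hD0 : 1 ≤ D)
    (hD : ∀ e, (univ.filter fun e' => conf e e' ∨ e = e').card ≤ D)
    (hcr : ∀ A : Finset E, 2 ≤ cc r0 a b A →
      2 * D * cc r0 a b A ≤ (univ.filter fun e => ¬ Cn r0 a b A (a e) (b e)).card) :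
    ∃ τ : Finset E, CF conf τ ∧ cc r0 a b τ ≤ 1 := by
  classical
  by_contra hcon
  push Not at hcon
  have hcc : ∀ τ, Opt r0 a b conf τ → 2 ≤ cc r0 a b τ := fun τ hτ => hcon τ hτ.1
  -- descending induction
  have key : ∀ n k : ℕ, k + n = Fintype.card E + 1 → ∀ s : ℕ → ℕ, St r0 a b conf k s →
      (∀ i < k, 1 ≤ s i) → ∃ j < k, ∃ s' : ℕ → ℕ, St r0 a b conf (j + 1) s' ∧
        (∀ i < j, s' i = s i) ∧ s' j < s j := by
    intro n
    induction n with
    | zero =>
      intro k hk s hst hs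
      exfalso
      obtain ⟨τ, x, -, hval, hsz⟩ := hst
      have h1 := Ut_card hsymm hval (fun i hi => by rw [hsz i hi]; exact hs i hi) k le_rfl
      have h2 := card_le_univ (Ut conf τ x k)
      omega
    | succ n ih =>
      intro k hk s hst hs
      obtain ⟨s1, hst1, hs1⟩ := hst.extend hsymm hD0 hD hcr hcc hs
      -- induction on the last size
      have inner : ∀ t : ℕ, ∀ s1 : ℕ → ℕ, s1 k = t → St r0 a b conf (k + 1) s1 →
          (∀ i < k, s1 i = s i) → ∃ j < k, ∃ s' : ℕ → ℕ, St r0 a b conf (j + 1) s' ∧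
            (∀ i < j, s' i = s i) ∧ s' j < s j := by
        intro t
        induction t using Nat.strong_induction_on with
        | _ t iht =>
          intro s1 ht hst1 hs1
          rcases Nat.eq_zero_or_pos t with h0 | h0
          · obtain ⟨j, hj, s', h1, h2, h3⟩ := hst1.swap hsymm (by omega)
            exact ⟨j, hj, s', h1, fun i hi => by rw [h2 i hi, hs1 i (by omega)],
              by rw [← hs1 j hj]; exact h3⟩
          · obtain ⟨j, hj, s', h1, h2, h3⟩ := ih (k + 1) (by omega) s1 hst1 (by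
              intro i hi
              rcases Nat.lt_or_eq_of_le (Nat.lt_succ_iff.1 hi) with h | rfl
              · rw [hs1 i h]; exact hs i h
              · omega)
            rcases Nat.lt_or_eq_of_le (Nat.lt_succ_iff.1 hj) with h | rfl
            · exact ⟨j, h, s', h1, fun i hi => by rw [h2 i hi, hs1 i (by omega)],
                by rw [← hs1 j h]; exact h3⟩
            · exact iht (s' j) (by omega) s' rfl h1 fun i hi => by rw [h2 i hi, hs1 i hi]
      exact inner _ s1 rfl hst1 hs1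
  obtain ⟨τ, hτ⟩ := exists_opt (r0 := r0) (a := a) (b := b) (conf := conf)
  by_cases hE : Nonempty E
  · obtain ⟨e⟩ := hE
    obtain ⟨j, hj, -⟩ := key (Fintype.card E + 1) 0 (by omega) (fun _ => 0)
      ⟨τ, fun _ => e, hτ, fun i hi => absurd hi (Nat.not_lt_zero i),
        fun i hi => absurd hi (Nat.not_lt_zero i)⟩ (fun i hi => absurd hi (Nat.not_lt_zero i))
    exact absurd hj (Nat.not_lt_zero j)
  · have h1 := hcc τ hτ
    have h2 := hcr τ h1
    have h3 : (univ.filter fun e => ¬ Cn r0 a b τ (a e) (b e)).card = 0 := by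
      rw [card_eq_zero]
      ext e
      exact absurd ⟨e⟩ hE
    rw [h3] at h2
    have : 0 < 2 * D * cc r0 a b τ := by positivity
    omega

end Pool.Agent.Exp
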