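import Mathlib
import Pool.Agent.Work.MP_974d84_co_exp.Ball

/-!
Growth of balls inside a vertex set with few boundary edges, and thinness of sets of matching edges
which are far apart.
-/

set_option linter.unusedSectionVars false

namespace Pool.Agent.Exp

open Finset SimpleGraph
open Pool.Agent.Work.MP_314beb_co

variable {V : Type*} [Fintype V] [DecidableEq V] (G : SimpleGraph V) [DecidableRel G.Adj]
  (μ : V → V) (Jv : Finset V)

/-- Ends in `Z` of the marked matching edges leaving `Z`. -/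
def Jends (Z : Finset V) : Finset V := Z.filter fun u => u ∈ Jv ∧ μ u ∉ Z

/-- Number of marked matching edges leaving `Z`. -/
def jj (Z : Finset V) : ℕ := (Jends μ Jv Z).card

theorem mem_Jends {Z : Finset V} {u : V} : u ∈ Jends μ Jv Z ↔ u ∈ Z ∧ u ∈ Jv ∧ μ u ∉ Z := by
  simp [Jends]

/-- Boundary edges of `Z` with an end in `A`. -/
def bd (Z A : Finset V) : Finset (V × V) := (cut G Z).filter fun p => p.1 ∈ A

theorem mem_bd {Z A : Finset V} {p : V × V} : p ∈ bd G Z A ↔ p ∈ cut G Z ∧ p.1 ∈ A := by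
  unfold bd; rw [mem_filter]

theorem inside_of_acyclic {A : Finset V} (hA : A.Nonempty)
    (hac : (G.induce (A : Set V)).IsAcyclic) : (inside G A).card + 2 ≤ 2 * A.card := by
  have : Nonempty (A : Set V) := by
    obtain ⟨x, hx⟩ := hA
    exact ⟨⟨x, hx⟩⟩
  have h1 := acyclic_edges (G.induce (A : Set V)) hac
  have h2 := inside_card G A
  have h6 : Fintype.card (A : Set V) = A.card := by simp
  omega

theorem dd_add_inside (h3 : ∀ v, G.degree v = 3) (A : Finset V) :
    dd G A + (inside G A).card = 3 * A.card := by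
  have h4 := sum_degree_eq_cut_add_inside G A
  have h5 : ∑ v ∈ A, G.degree v = 3 * A.card := by
    rw [sum_congr rfl fun v _ => h3 v, sum_const, smul_eq_mul, mul_comm]
  unfold dd
  omega

/-- One step of growth. -/
theorem grow_step (h3 : ∀ v, G.degree v = 3) {Z : Finset V} {u : V} (hu : u ∈ Z) (i : ℕ)
    (hac : (G.induce (Bl (RW G Z) i u : Set V)).IsAcyclic)
    (hac' : (G.induce (Bl (RW G Z) (i + 1) u : Set V)).IsAcyclic) :
    2 * (Bl (RW G Z) i u).card + 2
      ≤ (Bl (RW G Z) (i + 1) u).card + (bd G Z (Bl (RW G Z) i u)).card := by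
  set A := Bl (RW G Z) i u with hA
  set B := Bl (RW G Z) (i + 1) u with hB
  have hAB : A ⊆ B := Bl_mono (Nat.le_succ i) u
  have hAZ : A ⊆ Z := Bl_RW_sub hu i
  have hgrow : ∀ x ∈ A, ∀ y ∈ Z, G.Adj x y → y ∈ B := fun x hx y hy hxy =>
    mem_Bl_succ.2 (Or.inr ⟨x, hx, hxy, hAZ hx, hy⟩)
  let S2 : Finset (V × V) := (cut G A).filter fun p => p.2 ∈ Z
  have hS2 : ∀ p, p ∈ S2 ↔ (p.1 ∈ A ∧ p.2 ∉ A ∧ G.Adj p.1 p.2) ∧ p.2 ∈ Z := by
    intro p
    simp only [S2]
    rw [mem_filter, mem_cut]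
  have e1 : S2.card + (bd G Z A).card = dd G A := by
    unfold dd
    rw [← card_filter_add_card_filter_not (s := cut G A) (fun p => p.2 ∈ Z)]
    congr 1
    congr 1
    ext p
    rw [mem_bd, mem_filter, mem_cut, mem_cut]
    constructor
    · rintro ⟨⟨_, h2, h3⟩, h4⟩
      exact ⟨⟨h4, fun h => h2 (hAZ h), h3⟩, h2⟩
    · rintro ⟨⟨h1, _, h3⟩, h4⟩
      exact ⟨⟨hAZ h1, h4, h3⟩, h1⟩
  let S3 : Finset (V × V) := S2.image Prod.swap
  have c3 : S3.card = S2.card := card_image_of_injective _ Prod.swap_injective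
  have d12 : Disjoint (inside G A) S2 := by
    rw [Finset.disjoint_left]
    intro p hp hp'
    rw [mem_inside] at hp
    exact ((hS2 p).1 hp').1.2.1 hp.2.1
  have d3 : Disjoint (inside G A ∪ S2) S3 := by
    rw [Finset.disjoint_left]
    intro p hp hp'
    simp only [S3] at hp'
    rw [mem_image] at hp'
    obtain ⟨q, hq, rfl⟩ := hp'
    have hq' := (hS2 q).1 hq
    rw [mem_union, mem_inside, hS2] at hp
    rcases hp with hp | hp
    · exact hq'.1.2.1 hp.1
    · exact hq'.1.2.1 hp.1.1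
  have hsub : (inside G A ∪ S2) ∪ S3 ⊆ inside G B := by
    intro p hp
    rw [mem_union, mem_union] at hp
    rw [mem_inside]
    rcases hp with (hp | hp) | hp
    · rw [mem_inside] at hp
      exact ⟨hAB hp.1, hAB hp.2.1, hp.2.2⟩
    · rw [hS2] at hp
      exact ⟨hAB hp.1.1, hgrow _ hp.1.1 _ hp.2 hp.1.2.2, hp.1.2.2⟩
    · simp only [S3] at hp
      rw [mem_image] at hp
      obtain ⟨q, hq, rfl⟩ := hp
      rw [hS2] at hq
      exact ⟨hgrow _ hq.1.1 _ hq.2 hq.1.2.2, hAB hq.1.1, hq.1.2.2.symm⟩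
  have c := card_le_card hsub
  rw [card_union_of_disjoint d3, card_union_of_disjoint d12, c3] at c
  have f1 : (inside G A).card + 2 ≤ 2 * A.card := inside_of_acyclic G ⟨u, Bl_self i u⟩ hac
  have f2 : (inside G B).card + 2 ≤ 2 * B.card := inside_of_acyclic G ⟨u, Bl_self (i + 1) u⟩ hac'
  have f3 := dd_add_inside G h3 A
  omega

/-- Balls with few boundary edges are large. -/
theorem ball_big (h3 : ∀ v, G.degree v = 3) {Z : Finset V} (hZ : Joined G Z) {u : V} (hu : u ∈ Z)
    {r : ℕ} (hr : 1 ≤ r)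
    (hsm : ∀ A : Finset V, A.card ≤ 3 * 2 ^ (r + 3) → (G.induce (A : Set V)).IsAcyclic)
    (hne : ¬ Z ⊆ Bl (RW G Z) (r + 3) u)
    (hb : (bd G Z (Bl (RW G Z) (r + 3) u)).card ≤ 5) :
    2 ^ r ≤ (Bl (RW G Z) (r + 3) u).card := by
  have hsm' : ∀ i ≤ r + 3, (G.induce (Bl (RW G Z) i u : Set V)).IsAcyclic := by
    intro i hi
    apply hsm
    have h1 : Bl (RW G Z) i u ⊆ Bl G.Adj (r + 3) u :=
      (Bl_mono hi u).trans (Bl_rel (fun _ _ h => h.1) _ _)
    have h2 := card_le_card h1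
    have h4 := Bl_card G h3 (r + 3) u
    omega
  have key : ∀ s : ℕ, 4 + s ≤ r + 3 → 3 + 2 ^ (s + 1) ≤ (Bl (RW G Z) (4 + s) u).card := by
    intro s
    induction s with
    | zero =>
      intro h
      have := Bl_grow hZ hu 4 fun hs => hne (hs.trans (Bl_mono (by omega) u))
      simpa using this
    | succ s ih =>
      intro h
      have h1 := ih (by omega)
      have h2 := grow_step G h3 hu (4 + s) (hsm' _ (by omega)) (hsm' _ (by omega))
      have h4 : (bd G Z (Bl (RW G Z) (4 + s) u)).card ≤ 5 := by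
        refine le_trans (card_le_card ?_) hb
        intro p hp
        rw [mem_bd] at hp ⊢
        exact ⟨hp.1, Bl_mono (by omega) u hp.2⟩
      have h5 : 2 ^ (s + 1 + 1) = 2 * 2 ^ (s + 1) := by ring
      have h6 : 4 + (s + 1) = 4 + s + 1 := by ring
      rw [h6]
      omega
  have h7 := key (r - 1) (by omega)
  rw [show 4 + (r - 1) = r + 3 by omega, show r - 1 + 1 = r by omega] at h7
  omega

variable {G μ Jv}

/-- Far apart matching edges are thin on connected sets. -/
theorem thin (h3 : ∀ v, G.degree v = 3) (hadj : ∀ v, G.Adj v (μ v)) {r : ℕ} (hr : 1 ≤ r)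
    (hsm : ∀ A : Finset V, A.card ≤ 3 * 2 ^ (r + 3) → (G.induce (A : Set V)).IsAcyclic)
    (hfar : ∀ u ∈ Jv, ∀ v ∈ Jv, v ≠ u → v ≠ μ u → v ∉ Bl G.Adj (2 * (r + 3)) u)
    {W : Finset V} (hexp : 25 * W.card ≤ 2 ^ r * dd G W) (hW : Joined G W)
    (h2 : 2 ≤ jj μ Jv W) : 5 * jj μ Jv W ≤ dd G W := by
  have hsymm : ∀ u v, RW G W u v → RW G W v u := fun u v h => ⟨h.1.symm, h.2.2, h.2.1⟩
  have hfar' : ∀ u ∈ Jends μ Jv W, ∀ v ∈ Jends μ Jv W, v ≠ u →
      v ∉ Bl (RW G W) (2 * (r + 3)) u := by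
    intro u hu v hv hne hmem
    rw [mem_Jends] at hu hv
    exact hfar u hu.2.1 v hv.2.1 hne (by rintro rfl; exact hu.2.2 hv.1)
      (Bl_rel (fun _ _ h => h.1) _ _ hmem)
  have hdisj : ∀ u ∈ Jends μ Jv W, ∀ v ∈ Jends μ Jv W, u ≠ v →
      Disjoint (Bl (RW G W) (r + 3) u) (Bl (RW G W) (r + 3) v) := by
    intro u hu v hv hne
    rw [Finset.disjoint_left]
    intro x hx hx'
    apply hfar' u hu v hv (Ne.symm hne)
    have := Bl_comp hx (Bl_symm hsymm hx')
    rwa [show r + 3 + (r + 3) = 2 * (r + 3) by ring] at this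
  have hnot : ∀ u ∈ Jends μ Jv W, ¬ W ⊆ Bl (RW G W) (r + 3) u := by
    intro u hu hs
    obtain ⟨v, hv, hne⟩ : ∃ v ∈ Jends μ Jv W, v ≠ u := by
      by_contra hno
      push Not at hno
      have : Jends μ Jv W ⊆ {u} := fun v hv => mem_singleton.2 (hno v hv)
      have := card_le_card this
      unfold jj at h2
      simp at this
      omega
    exact hfar' u hu v hv hne (Bl_mono (by omega) u (hs ((mem_Jends μ Jv).1 hv).1))
  -- vertices
  have v1 : ∑ u ∈ Jends μ Jv W, (Bl (RW G W) (r + 3) u).card ≤ W.card := by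
    rw [← card_biUnion hdisj]
    refine card_le_card ?_
    intro x hx
    rw [mem_biUnion] at hx
    obtain ⟨u, hu, hx⟩ := hx
    exact Bl_RW_sub ((mem_Jends μ Jv).1 hu).1 _ hx
  -- boundary edges
  have b1 : ∑ u ∈ Jends μ Jv W, (bd G W (Bl (RW G W) (r + 3) u)).card ≤ dd G W := by
    rw [← card_biUnion]
    · refine card_le_card ?_
      intro x hx
      rw [mem_biUnion] at hx
      obtain ⟨u, hu, hx⟩ := hx
      exact ((mem_bd G).1 hx).1
    · intro u hu v hv hne
      simp only [Function.onFun]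
      rw [Finset.disjoint_left]
      intro x hx hx'
      exact (Finset.disjoint_left.1 (hdisj u hu v hv hne)) ((mem_bd G).1 hx).2
        ((mem_bd G).1 hx').2
  let U2 := (Jends μ Jv W).filter fun u => (bd G W (Bl (RW G W) (r + 3) u)).card ≤ 5
  let U1 := (Jends μ Jv W).filter fun u => ¬ (bd G W (Bl (RW G W) (r + 3) u)).card ≤ 5
  have hU : U2.card + U1.card = jj μ Jv W := card_filter_add_card_filter_not _
  have v2 : U2.card * 2 ^ r ≤ W.card := by
    refine le_trans ?_ v1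
    rw [← smul_eq_mul, ← sum_const]
    refine (sum_le_sum fun u hu => ?_).trans
      (sum_le_sum_of_subset (filter_subset _ _))
    have hu' := mem_filter.1 hu
    exact ball_big G h3 hW ((mem_Jends μ Jv).1 hu'.1).1 hr hsm (hnot u hu'.1) hu'.2
  have b2 : U2.card + 6 * U1.card ≤ dd G W := by
    refine le_trans ?_ b1
    rw [← sum_filter_add_sum_filter_not (Jends μ Jv W)
      (fun u => (bd G W (Bl (RW G W) (r + 3) u)).card ≤ 5)]
    refine Nat.add_le_add ?_ ?_
    · rw [card_eq_sum_ones]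
      refine sum_le_sum fun u hu => ?_
      have hu' := (mem_Jends μ Jv).1 (mem_filter.1 hu).1
      refine card_pos.2 ⟨(u, μ u), ?_⟩
      rw [mem_bd, mem_cut]
      exact ⟨⟨hu'.1, hu'.2.2, hadj u⟩, Bl_self _ _⟩
    · rw [mul_comm, ← smul_eq_mul, ← sum_const]
      refine sum_le_sum fun u hu => ?_
      have := (mem_filter.1 hu).2
      omega
  have h6 : 2 ^ r * (25 * U2.card) ≤ 2 ^ r * dd G W := by
    calc 2 ^ r * (25 * U2.card) = 25 * (U2.card * 2 ^ r) := by ring
      _ ≤ 25 * W.card := by omega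
      _ ≤ 2 ^ r * dd G W := hexp
  have h7 : 25 * U2.card ≤ dd G W := Nat.le_of_mul_le_mul_left h6 (by positivity)
  omega

end Pool.Agent.Exp
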