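import Mathlib
import Pool.Agent.Work.MP_974d84_co_exp.Grow
import Pool.Agent.Work.MP_974d84_co.MFlow
import Pool.Agent.Work.MP_974d84_co.K0

/-!
Extension of a 4-flow of a cubic graph minus a thin set of matching edges.
-/

set_option linter.unusedSectionVars false

namespace Pool.Agent.Exp

open Finset SimpleGraph MP974d84

variable {V : Type*} [Fintype V] [DecidableEq V] (G : SimpleGraph V) [DecidableRel G.Adj]
  (μ : V → V) (Jv : Finset V)

variable {G μ Jv}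

section flows

variable {ν : V → ℕ} (hν : Function.Injective ν)

/-- Membership in the marked edges. -/
def isJ (μ : V → V) (Jv : Finset V) (e : V × V) : Prop := e.2 = μ e.1 ∧ e.1 ∈ Jv

instance (e : V × V) : Decidable (isJ μ Jv e) := by unfold isJ; infer_instance

include hν in
theorem J_cross (hμ : ∀ v, μ (μ v) = v) (hJ : ∀ v ∈ Jv, μ v ∈ Jv) (Z : Finset V) :
    ((K.oe ν G).filter fun e => crs (Prod.fst : V × V → V) Prod.snd Z e ∧ isJ μ Jv e).card ≤ jj μ Jv Z := by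
  unfold jj
  refine card_le_card_of_injOn (fun e => if e.1 ∈ Z then e.1 else e.2) ?_ ?_
  · intro e he
    rw [mem_coe, mem_filter, K.mem_oe] at he
    obtain ⟨⟨-, -⟩, hc, hj1, hj2⟩ := he
    rw [mem_coe, mem_Jends]
    simp only
    split_ifs with h
    · rcases hc with hc | hc
      · exact ⟨h, hj2, by rw [← hj1]; exact hc.2⟩
      · exact absurd h hc.1
    · rcases hc with hc | hc
      · exact absurd hc.1 h
      · refine ⟨hc.2, by rw [hj1]; exact hJ _ hj2, ?_⟩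
        rw [hj1, hμ]; exact h
  · intro e he e' he' heq
    rw [mem_coe, mem_filter, K.mem_oe] at he he'
    obtain ⟨⟨-, hlt⟩, hc, hj1, hj2⟩ := he
    obtain ⟨⟨-, hlt'⟩, hc', hj1', hj2'⟩ := he'
    obtain ⟨p, q⟩ := e
    obtain ⟨p', q'⟩ := e'
    simp only at heq hlt hlt' hj1 hj1'
    subst hj1 hj1'
    split_ifs at heq with h1 h2 h2
    · rw [heq]
    · rw [heq, hμ] at hlt
      omega
    · rw [← heq, hμ] at hlt'
      omega
    · have : p = p' := by rw [← hμ p, heq, hμ]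
      rw [this]

include hν in
theorem dd_le (hμ : ∀ v, μ (μ v) = v) (hJ : ∀ v ∈ Jv, μ v ∈ Jv) {φ : V × V → ℤ}
    (hφ : ∀ e, φ e ≠ 0 ↔ (e ∈ K.oe ν G ∧ ¬ isJ μ Jv e)) (Z : Finset V) :
    dd G Z ≤ (univ.filter fun e => ov (Prod.fst : V × V → V) Prod.snd φ Z e ≠ 0).card + jj μ Jv Z := by
  rw [← dd_interedges, ← K.crs_card hν]
  refine le_trans ?_ (Nat.add_le_add_left (J_cross (G := G) hν hμ hJ Z) _)
  refine le_trans (card_le_card ?_) (card_union_le _ _)
  intro e he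
  rw [mem_filter] at he
  rw [mem_union, mem_filter, mem_filter]
  by_cases hj : isJ μ Jv e
  · exact Or.inr ⟨he.1, he.2, hj⟩
  · refine Or.inl ⟨mem_univ e, ?_⟩
    have h1 := (hφ e).2 ⟨he.1, hj⟩
    unfold ov
    rcases he.2 with h | h
    · simp [h.1, h.2, h1]
    · simp [h.1, h.2, h1]

theorem four_hh {φ : V × V → ℤ} (h3 : ∀ e, -3 ≤ φ e ∧ φ e ≤ 3)
    (h0 : ∀ a, D (Prod.fst : V × V → V) Prod.snd φ a = 0) (Z : Finset V) :
    ((univ.filter fun e => ov (Prod.fst : V × V → V) Prod.snd φ Z e ≠ 0).card : ℤ) ≤ 4 * hh (Prod.fst : V × V → V) Prod.snd φ Z := by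
  have h1 := sum_ov h0 Z
  have h2 : ∑ e, ((if ov (Prod.fst : V × V → V) Prod.snd φ Z e ≠ 0 then (1 : ℤ) else 0) + 5 * ov (Prod.fst : V × V → V) Prod.snd φ Z e)
      ≤ ∑ e, 4 * hi (ov (Prod.fst : V × V → V) Prod.snd φ Z e) := by
    refine sum_le_sum fun e _ => ?_
    have := ov_abs (s := Prod.fst) (t := Prod.snd) (by norm_num) h3 Z e
    unfold hi
    split_ifs <;> omega
  rw [sum_add_distrib, ← mul_sum, h1, sum_boole, ← mul_sum] at h2
  simpa [hh] using h2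

include hν in
/-- The cut condition for connected sets. -/
theorem jj_le_joined (h3 : ∀ v, G.degree v = 3) {k : ℕ} (hk : 3 ≤ k) (hc : CycConn G k)
    (hμ : ∀ v, μ (μ v) = v) (hJ : ∀ v ∈ Jv, μ v ∈ Jv) {φ : V × V → ℤ}
    (hφ3 : ∀ e, -3 ≤ φ e ∧ φ e ≤ 3) (hφ0 : ∀ a, D (Prod.fst : V × V → V) Prod.snd φ a = 0)
    (hφ : ∀ e, φ e ≠ 0 ↔ (e ∈ K.oe ν G ∧ ¬ isJ μ Jv e))
    {W : Finset V} (hthin : 2 ≤ jj μ Jv W → 5 * jj μ Jv W ≤ dd G W) :
    (jj μ Jv W : ℤ) ≤ hh (Prod.fst : V × V → V) Prod.snd φ W := by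
  have a1 := hh_nonneg hφ3 hφ0 W
  have a2 := four_hh hφ3 hφ0 W
  have a3 := dd_le (G := G) hν hμ hJ hφ W
  rcases Nat.lt_or_ge (jj μ Jv W) 2 with hlt | hge
  · rcases Nat.eq_zero_or_pos (jj μ Jv W) with h0 | hpos
    · rw [h0]; simpa using a1
    · have hne : (Jends μ Jv W).Nonempty := card_pos.1 hpos
      obtain ⟨u, hu⟩ := hne
      rw [mem_Jends] at hu
      have := three_le_dd G h3 hk hc (S := W) ⟨u, hu.1⟩ ⟨μ u, mem_compl.2 hu.2.2⟩
      omega
  · have := hthin hge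
    omega

/-- Splitting of the number of marked edges. -/
theorem jj_split {A W : Finset V} (hA : A ⊆ W) :
    jj μ Jv W ≤ jj μ Jv A + jj μ Jv (W \ A) := by
  unfold jj
  refine le_trans (card_le_card ?_) (card_union_le _ _)
  intro u hu
  rw [mem_Jends] at hu
  rw [mem_union, mem_Jends, mem_Jends]
  by_cases huA : u ∈ A
  · exact Or.inl ⟨huA, hu.2.1, fun h => hu.2.2 (hA h)⟩
  · exact Or.inr ⟨mem_sdiff.2 ⟨hu.1, huA⟩, hu.2.1, fun h => hu.2.2 (mem_sdiff.1 h).1⟩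

/-- Splitting of the slack. -/
theorem hh_split {φ : V × V → ℤ} (hφ : ∀ e, φ e ≠ 0 → G.Adj e.1 e.2) {A W : Finset V}
    (hA : A ⊆ W) (hno : ∀ x ∈ A, ∀ y ∈ W, y ∉ A → ¬ G.Adj x y) :
    hh (Prod.fst : V × V → V) Prod.snd φ W = hh (Prod.fst : V × V → V) Prod.snd φ A + hh (Prod.fst : V × V → V) Prod.snd φ (W \ A) := by
  unfold hh
  rw [← sum_add_distrib]
  refine sum_congr rfl fun e _ => ?_
  by_cases h0 : φ e = 0
  · rw [ov_zero h0, ov_zero h0, ov_zero h0]; simp [hi]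
  · have hadj := hφ e h0
    unfold ov
    by_cases c1 : e.1 ∈ A
    · have c1' := hA c1
      by_cases c2 : e.2 ∈ A
      · have c2' := hA c2
        simp [c1, c2, c1', c2', hi]
      · by_cases c3 : e.2 ∈ W
        · exact absurd hadj (hno _ c1 _ c3 c2)
        · simp [c1, c1', c2, c3, hi]
    · by_cases c1' : e.1 ∈ W
      · by_cases c2 : e.2 ∈ A
        · exact absurd hadj.symm (hno _ c2 _ c1' c1)
        · by_cases c3 : e.2 ∈ W
          · simp [c1, c1', c2, c3, hi]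
          · simp [c1, c1', c2, c3, hi]
      · by_cases c2 : e.2 ∈ A
        · have c2' := hA c2
          simp [c1, c1', c2, c2', hi]
        · by_cases c3 : e.2 ∈ W
          · simp [c1, c1', c2, c3, hi]
          · simp [c1, c1', c2, c3, hi]

include hν in
/-- The cut condition for small sets. -/
theorem jj_le_small (h3 : ∀ v, G.degree v = 3) {k : ℕ} (hk : 3 ≤ k) (hc : CycConn G k)
    (hμ : ∀ v, μ (μ v) = v) (hJ : ∀ v ∈ Jv, μ v ∈ Jv) {φ : V × V → ℤ}
    (hφ3 : ∀ e, -3 ≤ φ e ∧ φ e ≤ 3) (hφ0 : ∀ a, D (Prod.fst : V × V → V) Prod.snd φ a = 0)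
    (hφ : ∀ e, φ e ≠ 0 ↔ (e ∈ K.oe ν G ∧ ¬ isJ μ Jv e))
    (hthin : ∀ W : Finset V, 2 * W.card ≤ Fintype.card V → Joined G W →
      2 ≤ jj μ Jv W → 5 * jj μ Jv W ≤ dd G W) :
    ∀ (n : ℕ) (W : Finset V), W.card = n → 2 * W.card ≤ Fintype.card V →
      (jj μ Jv W : ℤ) ≤ hh (Prod.fst : V × V → V) Prod.snd φ W := by
  intro n
  induction n using Nat.strong_induction_on with
  | _ n ih =>
    intro W hn hW
    by_cases hj : Joined G W
    · exact jj_le_joined hν h3 hk hc hμ hJ hφ3 hφ0 hφ (hthin W hW hj)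
    · unfold Joined at hj
      push Not at hj
      obtain ⟨A, hAW, hA, hne, hno⟩ := hj
      have hlt : A.card < W.card := card_lt_card (hAW.ssubset_of_ne hne)
      have hpos := hA.card_pos
      have hB : (W \ A).card = W.card - A.card := card_sdiff_of_subset hAW
      have i1 := ih A.card (by omega) A rfl (by omega)
      have i2 := ih (W \ A).card (by omega) (W \ A) rfl (by omega)
      have j1 := jj_split (μ := μ) (Jv := Jv) hAW
      have j2 := hh_split (G := G) (φ := φ) (fun e he => (K.mem_oe.1 ((hφ e).1 he).1).1) hAW hno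
      omega

theorem ov_neg_compl (φ : V × V → ℤ) (Z : Finset V) (e : V × V) :
    ov (Prod.fst : V × V → V) Prod.snd (fun e => - φ e) Zᶜ e = ov (Prod.fst : V × V → V) Prod.snd φ Z e := by
  unfold ov
  by_cases c1 : e.1 ∈ Z <;> by_cases c2 : e.2 ∈ Z <;> simp [c1, c2]

theorem jj_compl (hμ : ∀ v, μ (μ v) = v) (hJ : ∀ v ∈ Jv, μ v ∈ Jv) (Z : Finset V) :
    jj μ Jv Z ≤ jj μ Jv Zᶜ := by
  unfold jj
  refine card_le_card_of_injOn μ ?_ ?_
  · intro u hu
    rw [mem_coe, mem_Jends] at hu ⊢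
    exact ⟨mem_compl.2 hu.2.2, hJ _ hu.2.1, by rw [hμ, mem_compl, not_not]; exact hu.1⟩
  · intro u _ v _ h
    rw [← hμ u, h, hμ]

include hν in
/-- The cut condition. -/
theorem jj_le (h3 : ∀ v, G.degree v = 3) {k : ℕ} (hk : 3 ≤ k) (hc : CycConn G k)
    (hμ : ∀ v, μ (μ v) = v) (hJ : ∀ v ∈ Jv, μ v ∈ Jv) {φ : V × V → ℤ}
    (hφ3 : ∀ e, -3 ≤ φ e ∧ φ e ≤ 3) (hφ0 : ∀ a, D (Prod.fst : V × V → V) Prod.snd φ a = 0)
    (hφ : ∀ e, φ e ≠ 0 ↔ (e ∈ K.oe ν G ∧ ¬ isJ μ Jv e))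
    (hthin : ∀ W : Finset V, 2 * W.card ≤ Fintype.card V → Joined G W →
      2 ≤ jj μ Jv W → 5 * jj μ Jv W ≤ dd G W)
    (Z : Finset V) : (jj μ Jv Z : ℤ) ≤ hh (Prod.fst : V × V → V) Prod.snd φ Z := by
  by_cases hZ : 2 * Z.card ≤ Fintype.card V
  · exact jj_le_small hν h3 hk hc hμ hJ hφ3 hφ0 hφ hthin _ Z rfl hZ
  · have h5 := card_add_card_compl Z
    have h4 := jj_le_small (φ := fun e => - φ e) hν h3 hk hc hμ hJ
      (fun e => by have := hφ3 e; omega)
      (fun a => by rw [D_neg, hφ0, neg_zero])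
      (fun e => by rw [neg_ne_zero]; exact hφ e) hthin _ Zᶜ rfl (by omega)
    have h6 : hh (Prod.fst : V × V → V) Prod.snd (fun e => - φ e) Zᶜ = hh (Prod.fst : V × V → V) Prod.snd φ Z := by
      unfold hh
      exact sum_congr rfl fun e _ => by rw [ov_neg_compl]
    have h7 := jj_compl hμ hJ Z
    omega

include hν in
/-- Extension of a 4-flow of the graph minus the marked edges to a nowhere-zero 5-flow. -/
theorem extend_thin (h3 : ∀ v, G.degree v = 3) {k : ℕ} (hk : 3 ≤ k) (hc : CycConn G k)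
    (hμ : ∀ v, μ (μ v) = v) (hJ : ∀ v ∈ Jv, μ v ∈ Jv) {φ : V × V → ℤ}
    (hφ3 : ∀ e, -3 ≤ φ e ∧ φ e ≤ 3) (hφ0 : ∀ a, D (Prod.fst : V × V → V) Prod.snd φ a = 0)
    (hφ : ∀ e, φ e ≠ 0 ↔ (e ∈ K.oe ν G ∧ ¬ isJ μ Jv e))
    (hthin : ∀ W : Finset V, 2 * W.card ≤ Fintype.card V → Joined G W →
      2 ≤ jj μ Jv W → 5 * jj μ Jv W ≤ dd G W) :
    HasFlow (ZMod 5) (Prod.fst : V × V → V) Prod.snd (K.oe ν G) := by
  refine extendE (φ := φ) (ρ := fun e => if e ∈ K.oe ν G ∧ isJ μ Jv e then 1 else 0) hφ3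
    (fun e => by split_ifs <;> omega) (fun e he => ?_) (fun e => ?_) (fun Z => ?_)
  · rw [if_neg]
    intro h
    exact ((hφ e).1 he).2 h.2
  · rw [hφ e]
    by_cases h1 : e ∈ K.oe ν G <;> by_cases h2 : isJ μ Jv e <;> simp [h1, h2]
  · have h4 := jj_le hν h3 hk hc hμ hJ hφ3 hφ0 hφ hthin Z
    have h5 := J_cross (G := G) hν hμ hJ Z
    have h6 : - ∑ e, ov (Prod.fst : V × V → V) Prod.snd (fun e => if e ∈ K.oe ν G ∧ isJ μ Jv e then (1 : ℤ) else 0) Z e
        ≤ ((K.oe ν G).filter fun e => crs (Prod.fst : V × V → V) Prod.snd Z e ∧ isJ μ Jv e).card := by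
      rw [card_filter, ← sum_neg_distrib]
      push_cast
      rw [← sum_filter_add_sum_filter_not univ (fun e => e ∈ K.oe ν G)]
      have z1 : ∑ e ∈ univ.filter (fun e => ¬ e ∈ K.oe ν G),
          (- ov (Prod.fst : V × V → V) Prod.snd (fun e => if e ∈ K.oe ν G ∧ isJ μ Jv e then (1 : ℤ) else 0) Z e) = 0 := by
        refine sum_eq_zero fun e he => ?_
        rw [mem_filter] at he
        unfold ov
        simp [he.2]
      have z2 : univ.filter (fun e => e ∈ K.oe ν G) = K.oe ν G := by ext e; simp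
      rw [z1, add_zero, z2]
      refine sum_le_sum fun e he => ?_
      unfold ov crs
      by_cases c1 : e.1 ∈ Z <;> by_cases c2 : e.2 ∈ Z <;> by_cases c3 : isJ μ Jv e <;>
        simp [c1, c2, c3, he]
    omega

end flows

end Pool.Agent.Exp
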