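import Mathlib
import Pool.Agent.Work.MP_974d84_co_exp.Conf
import Pool.Agent.Work.MP_974d84_co_exp.Thin
import Pool.Agent.Work.MP_974d84_co.Main5

/-!
A 4-flow of a cubic graph minus a sparse set of matching edges.
-/

set_option linter.unusedSectionVars false

namespace Pool.Agent.Exp

open Finset SimpleGraph MP974d84

variable {V : Type*} [Fintype V] [DecidableEq V]

section paths

variable {r0 : V → V → Prop} {μ : V → V}

/-- Allowed pairs. -/
def Al (r0 : V → V → Prop) (μ : V → V) (A : Finset V) (p q : V) : Prop :=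
  r0 p q ∨ r0 q p ∨ (p ∈ A ∧ q = μ p) ∨ (q ∈ A ∧ p = μ q)

theorem Al.symm {A : Finset V} {p q : V} (h : Al r0 μ A p q) : Al r0 μ A q p := by
  unfold Al at *; tauto

/-- Indicators of paths modulo 2. -/
theorem exists_path {A : Finset V} {u v : V} (h : Cn r0 (fun v => v) μ A u v) :
    ∃ y : V → V → ZMod 2, (∀ p q, y p q = y q p) ∧ (∀ p q, y p q ≠ 0 → Al r0 μ A p q) ∧
      ∀ p, ∑ q, y p q = (if p = u then 1 else 0) + (if p = v then 1 else 0) := by
  unfold Cn at h
  induction h with
  | rel x z h =>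
    refine ⟨fun p q => (if p = x ∧ q = z then 1 else 0) + (if p = z ∧ q = x then 1 else 0),
      fun p q => ?_, fun p q hpq => ?_, fun p => ?_⟩
    · simp only
      rw [add_comm]
      congr 1
      · congr 1; rw [and_comm]
      · congr 1; rw [and_comm]
    · by_cases c1 : p = x ∧ q = z
      · obtain ⟨rfl, rfl⟩ := c1
        rcases h with h | ⟨e, he, h1, h2⟩
        · exact Or.inl h
        · exact Or.inr (Or.inr (Or.inl ⟨by rw [h1]; exact he, by rw [h2, h1]⟩))
      · by_cases c2 : p = z ∧ q = x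
        · obtain ⟨rfl, rfl⟩ := c2
          rcases h with h | ⟨e, he, h1, h2⟩
          · exact Or.inr (Or.inl h)
          · exact Or.inr (Or.inr (Or.inr ⟨by rw [h1]; exact he, by rw [h2, h1]⟩))
        · exact absurd (by simp [c1, c2]) hpq
    · rw [sum_add_distrib]
      congr 1
      · by_cases c : p = x <;> simp [c]
      · by_cases c : p = z <;> simp [c]
  | refl x =>
    refine ⟨fun _ _ => 0, fun _ _ => rfl, fun _ _ h => absurd rfl h, fun p => ?_⟩
    have h2 : ∀ z : ZMod 2, z + z = 0 := by decide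
    rw [h2]; simp
  | symm x z _ ih =>
    obtain ⟨y, h1, h2, h3⟩ := ih
    exact ⟨y, h1, h2, fun p => by rw [h3, add_comm]⟩
  | trans x z w _ _ ih1 ih2 =>
    obtain ⟨y, h1, h2, h3⟩ := ih1
    obtain ⟨y', h1', h2', h3'⟩ := ih2
    refine ⟨fun p q => y p q + y' p q, fun p q => congrArg₂ (· + ·) (h1 p q) (h1' p q), fun p q hpq => ?_, fun p => ?_⟩
    · by_cases c : y p q = 0
      · by_cases c' : y' p q = 0
        · exact absurd (by simp [c, c']) hpq
        · exact h2' p q c'
      · exact h2 p q c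
    · rw [sum_add_distrib, h3, h3']
      have h2 : ∀ z : ZMod 2, z + z = 0 := by decide
      have := h2 (if p = z then 1 else 0)
      linear_combination this

/-- A solution of the parity system. -/
theorem exists_x {A : Finset V} (hall : ∀ u v, Cn r0 (fun v => v) μ A u v)
    (heven : Even (Fintype.card V)) :
    ∃ x : V → V → ZMod 2, (∀ p q, x p q = x q p) ∧ (∀ p q, x p q ≠ 0 → Al r0 μ A p q) ∧
      ∀ p, ∑ q, x p q = 1 := by
  rcases isEmpty_or_nonempty V with hV | ⟨⟨r⟩⟩
  · exact ⟨fun _ _ => 0, fun _ _ => rfl, fun p => (hV.false p).elim, fun p => (hV.false p).elim⟩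
  · choose y h1 h2 h3 using fun v => exists_path (hall r v)
    refine ⟨fun p q => ∑ v, y v p q, fun p q => ?_, fun p q hpq => ?_, fun p => ?_⟩
    · exact sum_congr rfl fun v _ => h1 v p q
    · obtain ⟨v, -, hv⟩ := exists_ne_zero_of_sum_ne_zero hpq
      exact h2 v p q hv
    · rw [sum_comm]
      simp only [h3]
      rw [sum_add_distrib, sum_const, sum_ite_eq, if_pos (mem_univ p), card_univ]
      obtain ⟨k, hk⟩ := heven
      rw [hk, add_smul, ← smul_add]
      have h4 : ∀ z : ZMod 2, z + z = 0 := by decide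
      rw [h4, smul_zero, zero_add]

end paths

variable (G : SimpleGraph V) [DecidableRel G.Adj] {ν : V → ℕ}

/-- Symmetric conserved functions give flows modulo 2. -/
theorem D_of_symm (hν : Function.Injective ν) {g : V → V → ZMod 2} (hg : ∀ p q, g p q = g q p)
    (hs : ∀ p q, g p q ≠ 0 → G.Adj p q) (h0 : ∀ p, ∑ q, g p q = 0) (a : V) :
    D (Prod.fst : V × V → V) Prod.snd (fun e => if e ∈ K.oe ν G then g e.1 e.2 else 0) a = 0 := by
  rw [K.D_pair]
  refine (sum_congr rfl fun w _ => ?_).trans (h0 a)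
  simp only [K.mem_oe]
  by_cases hadj : G.Adj a w
  · have hne : ν a ≠ ν w := fun h => G.ne_of_adj hadj (hν h)
    rcases lt_or_gt_of_ne hne with hlt | hlt
    · simp [hadj, hlt, not_lt.2 hlt.le]
    · simp only [hadj, hadj.symm, hlt, not_lt.2 hlt.le, true_and, if_false, if_true, zero_sub]
      rw [hg w a]
      have : ∀ z : ZMod 2, -z = z := by decide
      exact this _
  · have : g a w = 0 := by
      by_contra h
      exact hadj (hs a w h)
    have hadj' : ¬ G.Adj w a := fun h => hadj h.symm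
    simp [hadj, hadj', this]

/-- The flow and the removed edges. -/
theorem exists_phi (hν : Function.Injective ν) (h3 : ∀ v, G.degree v = 3) {μ : V → V}
    (hadj : ∀ v, G.Adj v (μ v)) (hμ : ∀ v, μ (μ v) = v) {x : V → V → ZMod 2}
    (hx : ∀ p q, x p q = x q p) (hxs : ∀ p q, x p q ≠ 0 → G.Adj p q) (hx1 : ∀ p, ∑ q, x p q = 1) :
    ∃ (Jv : Finset V) (φ : V × V → ℤ), (∀ v, v ∈ Jv ↔ x v (μ v) = 1) ∧
      (∀ v ∈ Jv, μ v ∈ Jv) ∧ (∀ e, -3 ≤ φ e ∧ φ e ≤ 3) ∧
      (∀ a, D (Prod.fst : V × V → V) Prod.snd φ a = 0) ∧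
      (∀ e, φ e ≠ 0 ↔ (e ∈ K.oe ν G ∧ ¬ isJ μ Jv e)) := by
  have z2 : ∀ z : ZMod 2, z = 0 ∨ z = 1 := by decide
  let Jv : Finset V := univ.filter fun v => x v (μ v) = 1
  have hJv : ∀ v, v ∈ Jv ↔ x v (μ v) = 1 := fun v => by simp [Jv]
  let g1 : V → V → ZMod 2 := fun p q => if G.Adj p q ∧ q ≠ μ p then 1 else 0
  let g2 : V → V → ZMod 2 := fun p q => x p q + if q = μ p then 1 else 0
  have hflip : ∀ p q, q = μ p ↔ p = μ q := by
    intro p q
    constructor
    · rintro rfl; exact (hμ p).symm
    · rintro rfl; exact (hμ q).symm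
  have s1 : ∀ p q, g1 p q = g1 q p := by
    intro p q
    simp only [g1]
    congr 1
    rw [G.adj_comm, ne_eq, ne_eq, hflip p q]
  have s2 : ∀ p q, g2 p q = g2 q p := by
    intro p q
    simp only [g2]
    rw [hx p q]
    congr 2
    rw [hflip p q]
  have a1 : ∀ p q, g1 p q ≠ 0 → G.Adj p q := by
    intro p q h
    simp only [g1] at h
    by_contra hc
    exact h (by simp [hc])
  have a2 : ∀ p q, g2 p q ≠ 0 → G.Adj p q := by
    intro p q h
    simp only [g2] at h
    by_cases c : x p q = 0
    · by_cases c' : q = μ p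
      · rw [c']; exact hadj p
      · exact absurd (by simp [c, c']) h
    · exact hxs p q c
  have b1 : ∀ p, ∑ q, g1 p q = 0 := by
    intro p
    simp only [g1]
    rw [sum_boole]
    have : (univ.filter fun q => G.Adj p q ∧ q ≠ μ p) = (G.neighborFinset p).erase (μ p) := by
      ext q; simp [and_comm]
    rw [this, card_erase_of_mem (by simpa using hadj p), card_neighborFinset_eq_degree, h3]
    decide
  have b2 : ∀ p, ∑ q, g2 p q = 0 := by
    intro p
    simp only [g2]
    rw [sum_add_distrib, hx1, sum_ite_eq', if_pos (mem_univ _)]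
    decide
  obtain ⟨b, a, hb, ha, hb0, ha0, hab, -⟩ := int_flows
    (P := fun e => e ∈ K.oe ν G ∧ ¬ isJ μ Jv e)
    (D_of_symm G hν s1 a1 b1) (D_of_symm G hν s2 a2 b2) (by
      intro e
      by_cases he : e ∈ K.oe ν G
      · have hadj' := (K.mem_oe.1 he).1
        simp only [he, if_true, true_and, isJ, hJv]
        simp only [g1, g2, hadj', true_and]
        by_cases c : e.2 = μ e.1
        · rcases z2 (x e.1 e.2) with c' | c'
          · rw [← c, c']; simp
          · rw [← c, c']; simp; decide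
        · simp [c]
      · simp [he])
  refine ⟨Jv, fun e => b e + 2 * a e, hJv, ?_, ?_, ?_, ?_⟩
  · intro v hv
    rw [hJv] at hv ⊢
    rw [hμ, hx]; exact hv
  · intro e
    have := hb e
    have := ha e
    simp only
    omega
  · intro v
    rw [D_comb, hb0, ha0]; ring
  · intro e
    rw [← hab e]
    have := hb e
    have := ha e
    simp only
    constructor
    · intro h
      by_contra hc
      push Not at hc
      omega
    · intro h hc
      omega

end Pool.Agent.Exp
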