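import Mathlib
import Pool.Agent.Work.MP_974d84_co_exp.Sol

/-!
Nowhere-zero 5-flows of cubic expanders of large cyclic edge connectivity.
-/

set_option linter.unusedSectionVars false

namespace Pool.Agent.Exp

open Finset SimpleGraph MP974d84

variable {V : Type*} [Fintype V] [DecidableEq V] (G : SimpleGraph V) [DecidableRel G.Adj]

/-- Two matching edges are in conflict if they are at distance at most `m`. -/
def conf (μ : V → V) (m : ℕ) (p q : V) : Prop :=
  ∃ x y, (x = p ∨ x = μ p) ∧ (y = q ∨ y = μ q) ∧ y ∈ Bl G.Adj m x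

theorem conf_symm {μ : V → V} {m : ℕ} {p q : V} (h : conf G μ m p q) : conf G μ m q p := by
  obtain ⟨x, y, hx, hy, hxy⟩ := h
  exact ⟨y, x, hy, hx, Bl_symm (fun _ _ h => h.symm) hxy⟩

open Classical in
theorem conf_card (h3 : ∀ v, G.degree v = 3) {μ : V → V} (hμ : ∀ v, μ (μ v) = v) (m : ℕ)
    (p : V) : (univ.filter fun q => conf G μ m p q ∨ p = q).card ≤ 4 * (3 * 2 ^ m) := by
  have hsub : (univ.filter fun q => conf G μ m p q ∨ p = q) ⊆
      ((Bl G.Adj m p ∪ Bl G.Adj m (μ p)) ∪
        ((Bl G.Adj m p).image μ ∪ (Bl G.Adj m (μ p)).image μ)) := by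
    intro q hq
    rw [mem_filter] at hq
    rw [mem_union, mem_union, mem_union, mem_image, mem_image]
    rcases hq.2 with ⟨x, y, hx, hy, hxy⟩ | rfl
    · rcases hy with rfl | rfl
      · rcases hx with rfl | rfl
        · exact Or.inl (Or.inl hxy)
        · exact Or.inl (Or.inr hxy)
      · rcases hx with rfl | rfl
        · exact Or.inr (Or.inl ⟨_, hxy, hμ q⟩)
        · exact Or.inr (Or.inr ⟨_, hxy, hμ q⟩)
    · exact Or.inl (Or.inl (Bl_self m p))
  have c1 := Bl_card G h3 m p
  have c2 := Bl_card G h3 m (μ p)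
  have c3 := card_union_le (Bl G.Adj m p) (Bl G.Adj m (μ p))
  have c4 := card_union_le ((Bl G.Adj m p).image μ) ((Bl G.Adj m (μ p)).image μ)
  have c5 := card_image_le (s := Bl G.Adj m p) (f := μ)
  have c6 := card_image_le (s := Bl G.Adj m (μ p)) (f := μ)
  have c7 := card_union_le (Bl G.Adj m p ∪ Bl G.Adj m (μ p))
    ((Bl G.Adj m p).image μ ∪ (Bl G.Adj m (μ p)).image μ)
  have c8 := card_le_card hsub
  omega

/-- The relation given by the edges outside the matching. -/
def r1 (μ : V → V) (u w : V) : Prop := G.Adj u w ∧ w ≠ μ u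

/-- Sets closed under the non-matching edges. -/
theorem closed_cut {μ : V → V} {X : Finset V}
    (hX : ∀ p q, r1 G μ p q → (p ∈ X ↔ q ∈ X)) :
    dd G X = (X.filter fun v => μ v ∉ X ∧ G.Adj v (μ v)).card := by
  unfold dd
  refine card_bij' (fun p _ => p.1) (fun v _ => (v, μ v)) ?_ ?_ ?_ ?_
  · intro p hp
    rw [mem_cut] at hp
    have : p.2 = μ p.1 := by
      by_contra h
      exact hp.2.1 ((hX _ _ ⟨hp.2.2, h⟩).1 hp.1)
    rw [mem_filter, ← this]
    exact hp
  · intro v hv
    rw [mem_filter] at hv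
    rw [mem_cut]
    exact hv
  · intro p hp
    rw [mem_cut] at hp
    have : p.2 = μ p.1 := by
      by_contra h
      exact hp.2.1 ((hX _ _ ⟨hp.2.2, h⟩).1 hp.1)
    rw [← this]
  · intro v _; rfl

theorem closed_not_acyclic (h3 : ∀ v, G.degree v = 3) {μ : V → V} {X : Finset V} (hX : ∀ p q, r1 G μ p q → (p ∈ X ↔ q ∈ X)) (hne : X.Nonempty) :
    ¬ (G.induce (X : Set V)).IsAcyclic := by
  apply not_acyclic_of_closed G h3 hne
  rw [closed_cut G hX]
  exact card_filter_le _ _

/-- The class of a vertex. -/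
theorem exists_class (h3 : ∀ v, G.degree v = 3) {μ : V → V} (A : Finset V) (hA : 2 ≤ cc (r1 G μ) (fun v => v) μ A) (r : V) :
    ∃ X : Finset V, (∀ v, v ∈ X ↔ Cn (r1 G μ) (fun v => v) μ A r v) ∧
      (∀ p q, r1 G μ p q → (p ∈ X ↔ q ∈ X)) ∧
      ¬ (G.induce (X : Set V)).IsAcyclic ∧ ¬ (G.induce ((Xᶜ : Finset V) : Set V)).IsAcyclic := by
  classical
  let X : Finset V := univ.filter fun v => Cn (r1 G μ) (fun v => v) μ A r v
  have hmem : ∀ v, v ∈ X ↔ Cn (r1 G μ) (fun v => v) μ A r v := fun v => by simp [X]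
  have hX : ∀ p q, r1 G μ p q → (p ∈ X ↔ q ∈ X) := by
    intro p q h
    rw [hmem, hmem]
    exact ⟨fun h' => h'.trans (Cn.base h), fun h' => h'.trans (Cn.base h).symm⟩
  have hX' : ∀ p q, r1 G μ p q → (p ∈ Xᶜ ↔ q ∈ Xᶜ) := by
    intro p q h
    rw [mem_compl, mem_compl, hX p q h]
  have hne : X.Nonempty := ⟨r, (hmem r).2 (Cn.refl A r)⟩
  have hne' : Xᶜ.Nonempty := by
    by_contra hno
    rw [not_nonempty_iff_eq_empty] at hno
    have hall : ∀ v, Cn (r1 G μ) (fun v => v) μ A r v := by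
      intro v
      rw [← hmem]
      by_contra hv
      have : v ∈ Xᶜ := mem_compl.2 hv
      rw [hno] at this
      exact absurd this (notMem_empty v)
    have : cc (r1 G μ) (fun v => v) μ A ≤ 1 := by
      unfold cc
      rw [Nat.card_eq_fintype_card, Fintype.card_le_one_iff]
      intro x y
      induction x using Quotient.inductionOn with
      | _ x =>
        induction y using Quotient.inductionOn with
        | _ y => exact Quotient.sound ((hall x).symm.trans (hall y))
    omega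
  exact ⟨X, hmem, hX, closed_not_acyclic G h3 hX hne, closed_not_acyclic G h3 hX' hne'⟩

open Classical in
/-- Many edges join the classes. -/
theorem crossing (h3 : ∀ v, G.degree v = 3) {μ : V → V} {k : ℕ}
    (hc : CycConn G k) (A : Finset V) (hA : 2 ≤ cc (r1 G μ) (fun v => v) μ A) :
    k * cc (r1 G μ) (fun v => v) μ A
      ≤ (univ.filter fun e => ¬ Cn (r1 G μ) (fun v => v) μ A e (μ e)).card := by
  set S := cnS (r1 G μ) (fun v => v) μ A with hS
  have hcc : cc (r1 G μ) (fun v => v) μ A = Fintype.card (Quotient S) := by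
    unfold cc
    rw [Nat.card_eq_fintype_card]
  rw [hcc]
  rw [card_eq_sum_card_fiberwise (f := fun v => (Quotient.mk S v))
    (t := (univ : Finset (Quotient S))) (fun _ _ => mem_coe.2 (mem_univ _)), mul_comm,
    ← card_univ, ← smul_eq_mul, ← sum_const]
  refine sum_le_sum fun c _ => ?_
  induction c using Quotient.inductionOn with
  | _ r =>
    obtain ⟨X, hmem, hX, n1, n2⟩ := exists_class G h3 A hA r
    have h5 := hc X n1 n2
    rw [closed_cut G hX] at h5
    refine h5.trans (card_le_card ?_)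
    intro v hv
    rw [mem_filter] at hv
    rw [mem_filter, mem_filter]
    have hrv := (hmem v).1 hv.1
    refine ⟨⟨mem_univ v, fun h => ?_⟩, Quotient.sound hrv.symm⟩
    exact hv.2.1 ((hmem _).2 (hrv.trans h))

/-- Small sets are acyclic when `n` is large. -/
theorem small_acyclic (h3 : ∀ v, G.degree v = 3) {r : ℕ} (hn : 48 * 4 ^ (r + 3) ≤ Fintype.card V)
    (hc : CycConn G (24 * 4 ^ (r + 3))) (A : Finset V) (hA : A.card ≤ 3 * 2 ^ (r + 3)) :
    (G.induce (A : Set V)).IsAcyclic := by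
  by_contra hac
  have h1 := dd_add_inside G h3 A
  have h2 : 2 ^ (r + 3) ≤ 4 ^ (r + 3) := Nat.pow_le_pow_left (by norm_num) _
  have h4 : 1 ≤ 2 ^ (r + 3) := Nat.one_le_pow _ _ (by norm_num)
  have h5 := card_add_card_compl A
  by_cases hac' : (G.induce ((Aᶜ : Finset V) : Set V)).IsAcyclic
  · have hne : Aᶜ.Nonempty := by
      rw [← card_pos]; omega
    have h6 := dd_of_acyclic G h3 hne hac'
    rw [dd_compl] at h6
    omega
  · have h6 := hc A hac hac'
    omega

/-- Nowhere-zero 5-flows of cubic graphs whose large sets expand. -/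
theorem main_flow {ν : V → ℕ} (hν : Function.Injective ν) (h3 : ∀ v, G.degree v = 3) {r : ℕ}
    (hr : 25 ≤ 2 ^ r)
    (hexp : ∀ S : Finset V, ¬ (G.induce (S : Set V)).IsAcyclic →
      ¬ (G.induce ((Sᶜ : Finset V) : Set V)).IsAcyclic →
      2 * S.card ≤ Fintype.card V → 25 * S.card ≤ 2 ^ r * dd G S)
    (hc : CycConn G (24 * 4 ^ (r + 3))) :
    HasFlow (ZMod 5) (Prod.fst : V × V → V) Prod.snd (K.oe ν G) := by
  have hpow1 : 1 ≤ 4 ^ (r + 3) := Nat.one_le_pow _ _ (by norm_num)
  have hk : 3 ≤ 24 * 4 ^ (r + 3) := by omega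
  have hr1 : 1 ≤ r := by
    by_contra hlt
    have : r = 0 := by omega
    rw [this] at hr
    norm_num at hr
  obtain ⟨μ, hadj, hμ⟩ := exists_mu G h3 hk hc
  have hxadj : ∀ (A : Finset V) (x : V → V → ZMod 2),
      (∀ p q, x p q ≠ 0 → Al (r1 G μ) μ A p q) → ∀ p q, x p q ≠ 0 → G.Adj p q := by
    intro A x hxs p q hpq
    rcases hxs p q hpq with h | h | ⟨-, h⟩ | ⟨-, h⟩
    · exact h.1
    · exact h.1.symm
    · rw [h]; exact hadj p
    · rw [h]; exact (hadj q).symm
  have hall : ∀ τ : Finset V, cc (r1 G μ) (fun v => v) μ τ ≤ 1 →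
      ∀ u v, Cn (r1 G μ) (fun v => v) μ τ u v := by
    intro τ hτ2 u v
    unfold cc at hτ2
    have : Fintype (Quotient (cnS (r1 G μ) (fun v => v) μ τ)) := Fintype.ofFinite _
    rw [Nat.card_eq_fintype_card, Fintype.card_le_one_iff] at hτ2
    exact Quotient.exact (hτ2 (Quotient.mk _ u) (Quotient.mk _ v))
  have hτJ : ∀ (τ : Finset V) (x : V → V → ZMod 2) (Jv : Finset V),
      (∀ p q, x p q ≠ 0 → Al (r1 G μ) μ τ p q) → (∀ v, v ∈ Jv ↔ x v (μ v) = 1) →
      ∀ u ∈ Jv, ∃ u' ∈ τ, u' = u ∨ u' = μ u := by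
    intro τ x Jv hxs hJ1 u hu
    rw [hJ1] at hu
    rcases hxs u (μ u) (by rw [hu]; decide) with h | h | ⟨h, -⟩ | ⟨h, -⟩
    · exact absurd rfl h.2
    · exact absurd (hμ u).symm h.2
    · exact ⟨u, h, Or.inl rfl⟩
    · exact ⟨μ u, h, Or.inr rfl⟩
  rcases Nat.lt_or_ge (cc (r1 G μ) (fun v => v) μ (∅ : Finset V)) 2 with hlt | hge
  · obtain ⟨x, hx, hxs, hx1⟩ := exists_x (hall ∅ (by omega)) (even_card G h3)
    obtain ⟨Jv, φ, hJ1, hJ2, hφ3, hφ0, hφ⟩ :=
      exists_phi G (ν := ν) hν h3 hadj hμ hx (hxadj _ x hxs) hx1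
    refine extend_thin hν h3 hk hc hμ hJ2 hφ3 hφ0 hφ ?_
    intro W _ _ h2
    obtain ⟨u, hu⟩ : (Jends μ Jv W).Nonempty := by
      rw [← card_pos]
      unfold jj at h2
      omega
    obtain ⟨u', hu', -⟩ := hτJ ∅ x Jv hxs hJ1 u ((mem_Jends μ Jv).1 hu).2.1
    exact absurd hu' (notMem_empty u')
  · -- the number of vertices is large
    have hn : 48 * 4 ^ (r + 3) ≤ Fintype.card V := by
      obtain ⟨v⟩ : Nonempty V := by
        by_contra hno
        rw [not_nonempty_iff] at hno
        unfold cc at hge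
        have : IsEmpty (Quotient (cnS (r1 G μ) (fun v => v) μ (∅ : Finset V))) :=
          ⟨fun q => Quotient.inductionOn q fun v => hno.false v⟩
        rw [Nat.card_of_isEmpty] at hge
        omega
      obtain ⟨X, -, hX, n1, n2⟩ := exists_class G h3 ∅ hge v
      have hX' : ∀ p q, r1 G μ p q → (p ∈ Xᶜ ↔ q ∈ Xᶜ) := by
        intro p q h
        rw [mem_compl, mem_compl, hX p q h]
      have k1 := hc X n1 n2
      have k2 := closed_cut G hX
      have k3 := closed_cut G hX'
      rw [dd_compl] at k3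
      have k4 := card_filter_le X (fun v => μ v ∉ X ∧ G.Adj v (μ v))
      have k5 := card_filter_le Xᶜ (fun v => μ v ∉ Xᶜ ∧ G.Adj v (μ v))
      have k6 := card_add_card_compl X
      omega
    have hpow : 4 * (3 * 2 ^ (2 * (r + 3))) = 12 * 4 ^ (r + 3) := by
      rw [pow_mul]
      norm_num
      ring
    obtain ⟨τ, hτ1, hτ2⟩ := exists_conflictFree (r0 := r1 G μ) (a := fun v : V => v) (b := μ)
      (conf := conf G μ (2 * (r + 3))) (fun _ _ => conf_symm G) (D := 12 * 4 ^ (r + 3))
      (by omega)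
      (fun p => by
        have := conf_card G h3 hμ (2 * (r + 3)) p
        rw [hpow] at this
        exact this)
      (fun A hA => by
        have := crossing G h3 hc A hA
        rwa [show 2 * (12 * 4 ^ (r + 3)) = 24 * 4 ^ (r + 3) by ring])
    obtain ⟨x, hx, hxs, hx1⟩ := exists_x (hall τ hτ2) (even_card G h3)
    obtain ⟨Jv, φ, hJ1, hJ2, hφ3, hφ0, hφ⟩ :=
      exists_phi G (ν := ν) hν h3 hadj hμ hx (hxadj _ x hxs) hx1
    refine extend_thin hν h3 hk hc hμ hJ2 hφ3 hφ0 hφ ?_
    have hfar : ∀ u ∈ Jv, ∀ v ∈ Jv, v ≠ u → v ≠ μ u → v ∉ Bl G.Adj (2 * (r + 3)) u := by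
      intro u hu v hv hne hne' hmem
      obtain ⟨u', hu', hu''⟩ := hτJ τ x Jv hxs hJ1 u hu
      obtain ⟨v', hv', hv''⟩ := hτJ τ x Jv hxs hJ1 v hv
      have hneq : u' ≠ v' := by
        rintro rfl
        rcases hu'' with h | h <;> rcases hv'' with h' | h'
        · exact hne (h'.symm.trans h)
        · apply hne'
          rw [← h, h', hμ]
        · apply hne'
          rw [← h', h]
        · apply hne
          rw [← hμ v, ← h', h, hμ]
      apply hτ1 u' hu' v' hv' hneq
      refine ⟨u, v, ?_, ?_, hmem⟩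
      · rcases hu'' with h | h
        · exact Or.inl h.symm
        · right; rw [h, hμ]
      · rcases hv'' with h | h
        · exact Or.inl h.symm
        · right; rw [h, hμ]
    intro W hW hj h2
    refine thin h3 hadj hr1 (small_acyclic G h3 hn hc) hfar ?_ hj h2
    rcases W.eq_empty_or_nonempty with rfl | hne
    · simp
    · have h5 := card_add_card_compl W
      have h6 := hne.card_pos
      have hbig : W.card ≤ dd G W → 25 * W.card ≤ 2 ^ r * dd G W := fun h =>
        Nat.mul_le_mul hr h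
      by_cases a1 : (G.induce (W : Set V)).IsAcyclic
      · apply hbig
        have := dd_of_acyclic G h3 hne a1
        omega
      · by_cases a2 : (G.induce ((Wᶜ : Finset V) : Set V)).IsAcyclic
        · apply hbig
          have := dd_of_acyclic G h3 (S := Wᶜ) (by rw [← card_pos]; omega) a2
          rw [dd_compl] at this
          omega
        · exact hexp W a1 a2 hW

/-- The same for the groups `ZMod i`. -/
theorem main_zmod {V : Type} [Fintype V] [DecidableEq V] (G : SimpleGraph V) [DecidableRel G.Adj]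
    (h3 : ∀ v, G.degree v = 3) {r : ℕ} (hr : 25 ≤ 2 ^ r)
    (hexp : ∀ S : Finset V, ¬ (G.induce (S : Set V)).IsAcyclic →
      ¬ (G.induce ((Sᶜ : Finset V) : Set V)).IsAcyclic →
      2 * S.card ≤ Fintype.card V → 25 * S.card ≤ 2 ^ r * dd G S)
    (hc : CycConn G (24 * 4 ^ (r + 3))) : ∀ i : ℕ, 5 ≤ i → HasNZFlow (ZMod i) G := by
  have hν : Function.Injective fun v : V => ((Fintype.equivFin V v : Fin _) : ℕ) :=
    fun u v h => (Fintype.equivFin V).injective (Fin.ext h)
  exact K.lift_five (K.hasNZ_of_hasFlow hν (main_flow G hν h3 hr hexp hc))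

end Pool.Agent.Exp
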