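import Mathlib
import Pool.Agent.Work.MP_974d84_co_exp.Main

/-!
Final forms: expansion given by a real constant, cyclic edge connectivity or girth.
-/

set_option linter.unusedSectionVars false

namespace Pool.Agent.Exp

open Finset SimpleGraph MP974d84

section

variable {V : Type*} [Fintype V] [DecidableEq V] (G : SimpleGraph V) [DecidableRel G.Adj]

/-- A vertex set inducing a cycle has at least as many vertices as the length of some cycle. -/
theorem exists_cycle_le_card {S : Finset V} (hS : ¬ (G.induce (S : Set V)).IsAcyclic) :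
    ∃ (v : V) (w : G.Walk v v), w.IsCycle ∧ w.length ≤ S.card := by
  classical
  unfold IsAcyclic at hS
  push Not at hS
  obtain ⟨v, w, hw⟩ := hS
  have h1 : (w.map (Embedding.induce (G := G) (S : Set V)).toHom).IsCycle :=
    hw.map (Embedding.induce (G := G) (S : Set V)).injective
  refine ⟨_, _, h1, ?_⟩
  rw [Walk.length_map]
  have h3 : w.support.tail.length ≤ Fintype.card (S : Set V) := hw.support_nodup.length_le_card
  rw [List.length_tail, Walk.length_support] at h3
  have h4 : Fintype.card (S : Set V) = S.card := by simp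
  omega

end

/-- Choice of the radius. -/
theorem exists_radius {c : ℝ} (hc : 0 < c) (hc1 : c ≤ 1) :
    ∃ r : ℕ, 25 ≤ c * 2 ^ r ∧ (24 * 4 ^ (r + 3) : ℝ) ≤ 4000000 / c ^ 2 := by
  have h1 : (1 : ℝ) ≤ 25 / c := by
    rw [le_div_iff₀ hc]; linarith
  obtain ⟨n, hn1, hn2⟩ := exists_nat_pow_near h1 (by norm_num : (1 : ℝ) < 2)
  refine ⟨n + 1, ?_, ?_⟩
  · have := (div_lt_iff₀ hc).1 hn2
    linarith
  · have h2 : (2 : ℝ) ^ n * c ≤ 25 := (le_div_iff₀ hc).1 hn1
    have h3 : ((2 : ℝ) ^ n * c) ^ 2 ≤ 25 ^ 2 := by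
      apply pow_le_pow_left₀ (by positivity) h2
    rw [le_div_iff₀ (by positivity)]
    have h4 : (4 : ℝ) ^ (n + 1 + 3) = 256 * (2 ^ n) ^ 2 := by
      rw [show (4 : ℝ) = 2 ^ 2 by norm_num, ← pow_mul, ← pow_mul]
      rw [show 2 * (n + 1 + 3) = 8 + n * 2 by ring, pow_add]
      norm_num
    rw [h4]
    calc (24 : ℝ) * (256 * (2 ^ n) ^ 2) * c ^ 2 = 6144 * (2 ^ n * c) ^ 2 := by ring
      _ ≤ 6144 * 25 ^ 2 := by gcongr
      _ ≤ 4000000 := by norm_num

end Pool.Agent.Exp
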