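import Mathlib
import Pool.Agent.Work.MP_974d84_co.Defs
import Pool.Agent.Work.MP_974d84_co_exp.Final

/-!
Nowhere-zero 5-flows of cubic graphs with edge expansion `c` whose cyclic edge connectivity, or
girth, is at least a constant depending only on `c`.

Former hand-in LargeGirthExpander, superseded by IsoperimetricFlow and ExpandingPieces. Its claim:

Proves: Let 0 < c <= 1 and let G be a finite simple cubic graph. Call S a cyclic side if S has at
most half of the vertices and both S and its complement induce graphs with a cycle. Suppose every
cyclic side S is left by at least c|S| edges (so edge expansion at least c suffices). If moreover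
every cyclic side is left by at least 4*10^6/c^2 edges, or every cycle of G has length at least
4*10^6/c^3, then G has a nowhere-zero flow over Z_i for every integer i >= 5. So Tutte's 5-flow
conjecture holds for all cubic graphs of edge expansion c whose cyclic edge connectivity (or
girth) is at least a constant depending on c.
Definitions: HasNZFlow A G says there is f on ordered pairs of vertices with values in the abelian
group A such that f(u,v) = -f(v,u), f(u,v) is nonzero exactly when u and v are adjacent, and for
each v the sum of f(v,u) over all vertices u is 0.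
Relation: Partial answer to Q1 through its equivalent form, Tutte's 5-flow conjecture: for these G
the cographic matroid M(G)^* has nonzero characteristic polynomial at every i >= 5. Nearest known:
Steffen (2010), cyclically (5m-3)-edge-connected cubic graphs with two 1-factors meeting in m
edges; here neither m nor the oddness is bounded. I know no 5-flow theorem for all cubic expanders
of large girth. Proof: a Haxell-type choice of far apart matching edges J such that G - J has a
4-flow, extended over J by Hoffman's theorem.
-/

namespace Pool.Agent.Exp.LargeGirthExpander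

open MP974d84

/-- Let `0 < c ≤ 1` and let `G` be a finite cubic graph. Suppose that every vertex set `S` with at
most half of the vertices such that both `S` and its complement induce a graph with a cycle is left
by at least `c * |S|` edges. Suppose moreover that all these cuts have at least
`4000000 / c ^ 2` edges, or that all cycles of `G` have length at least `4000000 / c ^ 3`. Then `G`
has a nowhere-zero flow with values in `ZMod i` for every `i ≥ 5`. -/
theorem result (c : ℝ) (hc : 0 < c) (hc1 : c ≤ 1) {V : Type} [Fintype V] [DecidableEq V]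
    (G : SimpleGraph V) [DecidableRel G.Adj] (h3 : G.IsRegularOfDegree 3)
    (hexp : ∀ S : Finset V, ¬ (G.induce (S : Set V)).IsAcyclic →
      ¬ (G.induce ((Sᶜ : Finset V) : Set V)).IsAcyclic → 2 * S.card ≤ Fintype.card V →
      c * (S.card : ℝ) ≤ ((G.interedges S Sᶜ).card : ℝ))
    (hcyc : (∀ S : Finset V, ¬ (G.induce (S : Set V)).IsAcyclic →
        ¬ (G.induce ((Sᶜ : Finset V) : Set V)).IsAcyclic → 2 * S.card ≤ Fintype.card V →
        4000000 / c ^ 2 ≤ ((G.interedges S Sᶜ).card : ℝ)) ∨
      ∀ (v : V) (w : G.Walk v v), w.IsCycle → 4000000 / c ^ 3 ≤ (w.length : ℝ)) :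
    ∀ i : ℕ, 5 ≤ i → HasNZFlow (ZMod i) G := by
  obtain ⟨r, hr1, hr2⟩ := Pool.Agent.Exp.exists_radius hc hc1
  have hpos : (0 : ℝ) < 2 ^ r := by positivity
  have h25 : (25 : ℝ) ≤ 2 ^ r := by
    calc (25 : ℝ) ≤ c * 2 ^ r := hr1
      _ ≤ 1 * 2 ^ r := by gcongr
      _ = 2 ^ r := one_mul _
  -- all the cuts are large
  have hbig : ∀ S : Finset V, ¬ (G.induce (S : Set V)).IsAcyclic →
      ¬ (G.induce ((Sᶜ : Finset V) : Set V)).IsAcyclic → 2 * S.card ≤ Fintype.card V →
      24 * 4 ^ (r + 3) ≤ Pool.Agent.Exp.dd G S := by
    intro S h1 h2 hS
    have h5 : 4000000 / c ^ 2 ≤ ((G.interedges S Sᶜ).card : ℝ) := by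
      rcases hcyc with hcyc | hg
      · exact hcyc S h1 h2 hS
      · obtain ⟨v, w, hw, hle⟩ := Pool.Agent.Exp.exists_cycle_le_card G h1
        have h6 := hg v w hw
        have h7 : (w.length : ℝ) ≤ S.card := by exact_mod_cast hle
        calc 4000000 / c ^ 2 = c * (4000000 / c ^ 3) := by field_simp
          _ ≤ c * (S.card : ℝ) := by gcongr; linarith
          _ ≤ _ := hexp S h1 h2 hS
    rw [Pool.Agent.Exp.dd_interedges] at h5
    have h6 := hr2.trans h5
    exact_mod_cast h6
  refine Pool.Agent.Exp.main_zmod G h3 (r := r) (by exact_mod_cast h25) ?_ ?_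
  · intro S h1 h2 hS
    have e1 := hexp S h1 h2 hS
    rw [Pool.Agent.Exp.dd_interedges] at e1
    have e4 : (25 : ℝ) * S.card ≤ (2 : ℝ) ^ r * (Pool.Agent.Exp.dd G S : ℝ) := by
      calc (25 : ℝ) * S.card ≤ c * 2 ^ r * S.card := by gcongr
        _ = (2 : ℝ) ^ r * (c * S.card) := by ring
        _ ≤ (2 : ℝ) ^ r * (Pool.Agent.Exp.dd G S : ℝ) := by gcongr
    exact_mod_cast e4
  · intro S h1 h2
    rcases Nat.lt_or_ge (Fintype.card V) (2 * S.card) with hlt | hge
    · rw [← Pool.Agent.Exp.dd_compl]
      refine hbig Sᶜ h2 (by rwa [compl_compl]) ?_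
      have := Finset.card_add_card_compl S
      omega
    · exact hbig S h1 h2 hge

end Pool.Agent.Exp.LargeGirthExpander
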